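import Mathlib

/-!
# Factorisations of `n ^ 2 + a` and binary quadratic forms of discriminant `-4 a`
-/

set_option autoImplicit false

namespace Pool.Agent.H578.Gen

/-- the binary quadratic form `A u ^ 2 + 2 B u v + C v ^ 2` -/
def Q (A B C u v : ℤ) : ℤ := A * u ^ 2 + 2 * B * (u * v) + C * v ^ 2

/-- the bilinear form -/
def L (A B C u v r s : ℤ) : ℤ := A * (u * r) + B * (u * s + v * r) + C * (v * s)

theorem QQ (A B C u v r s : ℤ) : Q A B C u v * Q A B C r s =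
    L A B C u v r s ^ 2 + (A * C - B ^ 2) * (u * s - v * r) ^ 2 := by
  unfold Q L
  ring

/-- the representation of a factorisation -/
def Rep (a d e n : ℤ) : Prop := ∃ A B C u v r s : ℤ, 0 < A ∧ 0 < C ∧ A * C - B ^ 2 = a ∧
    2 * |B| ≤ A ∧ A ≤ C ∧ u * s - v * r = 1 ∧ d = Q A B C u v ∧ e = Q A B C r s ∧
    n = L A B C u v r s

theorem rep_swap {a d e n : ℤ} (h : Rep a e d (-n)) : Rep a d e n := by
  obtain ⟨A, B, C, u, v, r, s, h1, h2, h3, h4, h5, h6, h7, h8, h9⟩ := h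
  refine ⟨A, B, C, -r, -s, u, v, h1, h2, h3, h4, h5, ?_, ?_, ?_, ?_⟩
  · linarith
  · rw [h8]
    unfold Q
    ring
  · exact h7
  · have : n = -L A B C u v r s := by linarith
    rw [this]
    unfold L
    ring

theorem rep_trans {a d e n : ℤ} (k : ℤ) (h : Rep a d (e - 2 * k * n + k ^ 2 * d) (n - k * d)) :
    Rep a d e n := by
  obtain ⟨A, B, C, u, v, r, s, h1, h2, h3, h4, h5, h6, h7, h8, h9⟩ := h
  refine ⟨A, B, C, u, v, r + k * u, s + k * v, h1, h2, h3, h4, h5, ?_, h7, ?_, ?_⟩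
  · linear_combination h6
  · have e1 : Q A B C (r + k * u) (s + k * v) =
        Q A B C r s + 2 * k * L A B C u v r s + k ^ 2 * Q A B C u v := by
      unfold Q L
      ring
    rw [e1, ← h7, ← h8, ← h9]
    ring
  · have e1 : L A B C u v (r + k * u) (s + k * v) =
        L A B C u v r s + k * Q A B C u v := by
      unfold Q L
      ring
    rw [e1, ← h7, ← h9]
    ring

theorem rep_all (a : ℤ) (ha : 1 ≤ a) : ∀ (m : ℕ) (d e n : ℤ), n.natAbs ≤ m → 0 < d → 0 < e →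
    d * e = n ^ 2 + a → Rep a d e n := by
  intro m
  induction m with
  | zero =>
    intro d e n hm hd he hde
    have hn : n = 0 := by omega
    subst hn
    rcases le_total d e with h | h
    · refine ⟨d, 0, e, 1, 0, 0, 1, hd, he, ?_, ?_, h, by norm_num, ?_, ?_, ?_⟩
      · linarith
      · simpa using hd.le
      · unfold Q; ring
      · unfold Q; ring
      · unfold L; ring
    · apply rep_swap
      refine ⟨e, 0, d, 1, 0, 0, 1, he, hd, ?_, ?_, h, by norm_num, ?_, ?_, ?_⟩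
      · linarith
      · simpa using he.le
      · unfold Q; ring
      · unfold Q; ring
      · unfold L; ring
  | succ m ih =>
    -- the case `d ≤ e`
    have key : ∀ d e n : ℤ, n.natAbs ≤ m + 1 → 0 < d → 0 < e → d * e = n ^ 2 + a → d ≤ e →
        Rep a d e n := by
      intro d e n hm hd he hde hle
      by_cases hred : 2 * |n| ≤ d
      · refine ⟨d, n, e, 1, 0, 0, 1, hd, he, ?_, hred, hle, by norm_num, ?_, ?_, ?_⟩
        · linarith
        · unfold Q; ring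
        · unfold Q; ring
        · unfold L; ring
      · push Not at hred
        -- translate by the sign of `n`
        obtain ⟨k, hk⟩ : ∃ k : ℤ, (n - k * d).natAbs ≤ m := by
          rcases le_total 0 n with hn | hn
          · refine ⟨1, ?_⟩
            rw [abs_of_nonneg hn] at hred
            omega
          · refine ⟨-1, ?_⟩
            rw [abs_of_nonpos hn] at hred
            omega
        apply rep_trans k
        have h1 : d * (e - 2 * k * n + k ^ 2 * d) = (n - k * d) ^ 2 + a := by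
          linear_combination hde
        apply ih d _ _ hk hd _ h1
        by_contra hc
        push Not at hc
        have h2 : d * (e - 2 * k * n + k ^ 2 * d) ≤ 0 := mul_nonpos_of_nonneg_of_nonpos hd.le hc
        have h3 : 0 ≤ (n - k * d) ^ 2 := sq_nonneg _
        linarith
    intro d e n hm hd he hde
    rcases le_total d e with h | h
    · exact key d e n hm hd he hde h
    · apply rep_swap
      apply key e d (-n) (by simpa using hm) he hd (by linarith) h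

/-- lower bounds for a positive form -/
theorem Q_lower {a A B C : ℤ} (ha : 1 ≤ a) (h : A * C - B ^ 2 = a) (u v : ℤ) :
    v ^ 2 ≤ A * Q A B C u v := by
  have h1 : A * Q A B C u v = (A * u + B * v) ^ 2 + a * v ^ 2 := by
    rw [← h]
    unfold Q
    ring
  rw [h1]
  have h2 : 0 ≤ (A * u + B * v) ^ 2 := sq_nonneg _
  have h3 : 0 ≤ v ^ 2 := sq_nonneg _
  nlinarith

theorem Q_lower' {a A B C : ℤ} (ha : 1 ≤ a) (h : A * C - B ^ 2 = a) (u v : ℤ) :
    u ^ 2 ≤ C * Q A B C u v := by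
  have h1 : C * Q A B C u v = (C * v + B * u) ^ 2 + a * u ^ 2 := by
    rw [← h]
    unfold Q
    ring
  rw [h1]
  have h2 : 0 ≤ (C * v + B * u) ^ 2 := sq_nonneg _
  have h3 : 0 ≤ u ^ 2 := sq_nonneg _
  nlinarith

/-- the forms which occur -/
def IsForm (a A B C : ℤ) : Prop :=
  0 < A ∧ 0 < C ∧ A ≤ 2 * a ∧ C ≤ 2 * a ∧ |B| ≤ a ∧ A * C - B ^ 2 = a

/-- normalised representation of a factorisation with `d ≤ e` -/
theorem reduce (a : ℕ) (ha : 1 ≤ a) (n : ℕ) (hn : 1 ≤ n) (d e : ℕ) (hd : 1 < d) (hde : d ≤ e)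
    (h : d * e = n ^ 2 + a) :
    ∃ A B C : ℤ, IsForm a A B C ∧ ∃ (x : ℕ) (y r s : ℤ), 1 ≤ x ∧ |y| ≤ x ∧
      (x : ℤ) * s + y * r = 1 ∧ (d : ℤ) = Q A B C x (-y) ∧ (e : ℤ) = Q A B C r s ∧
      ((n : ℤ) = L A B C x (-y) r s ∨ -(n : ℤ) = L A B C x (-y) r s) ∧
      x ^ 2 ≤ 2 * a * (1 + a) * n ∧ x * r.natAbs ≤ 2 * a * (1 + a) * n ∧
      x ^ 2 ≤ 2 * a * d ∧ d ≤ 6 * a * x ^ 2 := by
  have haz : (1 : ℤ) ≤ a := by exact_mod_cast ha
  have hnz : (1 : ℤ) ≤ n := by exact_mod_cast hn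
  have hdz : (1 : ℤ) < d := by exact_mod_cast hd
  have hdez : (d : ℤ) ≤ e := by exact_mod_cast hde
  have hz : (d : ℤ) * e = (n : ℤ) ^ 2 + a := by exact_mod_cast h
  obtain ⟨A, B, C, u, v, r, s, h1, h2, h3, h4, h5, h6, h7, h8, h9⟩ :=
    rep_all a haz n.succ d e n (by simp) (by linarith) (by linarith) hz
  have hB := abs_nonneg B
  have hBA : B ^ 2 = |B| ^ 2 := (sq_abs B).symm
  have hAC : A * A ≤ A * C := mul_le_mul_of_nonneg_left h5 h1.le
  have hB4 : 2 * |B| * (2 * |B|) ≤ A * A := mul_le_mul h4 h4 (by linarith) h1.le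
  have hB5 : 2 * |B| * (2 * |B|) = 4 * B ^ 2 := by rw [hBA]; ring
  have hA2 : 3 * (A * A) ≤ 4 * a := by linarith
  have hAA : A ≤ A * A := le_mul_of_one_le_left h1.le (by linarith)
  have hAa : A ≤ 2 * a := by linarith
  have hBa : |B| ≤ a := by linarith
  have hC1 : C ≤ A * C := le_mul_of_one_le_left h2.le (by linarith)
  have hCa : C ≤ 2 * a := by linarith
  -- the first variable is the larger one
  obtain ⟨A', B', C', u', v', r', s', f1, f2, f3, f4, f5, f6, f7, f8⟩ :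
      ∃ A' B' C' u' v' r' s' : ℤ, IsForm a A' B' C' ∧ |v'| ≤ |u'| ∧ u' * s' - v' * r' = 1 ∧
        (d : ℤ) = Q A' B' C' u' v' ∧ (e : ℤ) = Q A' B' C' r' s' ∧
        ((n : ℤ) = L A' B' C' u' v' r' s' ∨ -(n : ℤ) = L A' B' C' u' v' r' s') ∧ True ∧ True := by
    rcases le_total |v| |u| with huv | huv
    · exact ⟨A, B, C, u, v, r, s, ⟨h1, h2, hAa, hCa, hBa, h3⟩, huv, h6, h7, h8, Or.inl h9,
        trivial, trivial⟩
    · refine ⟨C, B, A, v, u, -s, -r, ⟨h2, h1, hCa, hAa, hBa, by linarith⟩, huv, by linarith, ?_, ?_,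
        Or.inr ?_, trivial, trivial⟩
      · rw [h7]; unfold Q; ring
      · rw [h8]; unfold Q; ring
      · rw [h9]; unfold L; ring
  -- and positive
  obtain ⟨u₁, v₁, r₁, s₁, g1, g2, g3, g4, g5, g6⟩ :
      ∃ u₁ v₁ r₁ s₁ : ℤ, 0 < u₁ ∧ |v₁| ≤ u₁ ∧ u₁ * s₁ - v₁ * r₁ = 1 ∧
        (d : ℤ) = Q A' B' C' u₁ v₁ ∧ (e : ℤ) = Q A' B' C' r₁ s₁ ∧
        ((n : ℤ) = L A' B' C' u₁ v₁ r₁ s₁ ∨ -(n : ℤ) = L A' B' C' u₁ v₁ r₁ s₁) := by
    rcases lt_trichotomy u' 0 with hu | hu | hu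
    · refine ⟨-u', -v', -r', -s', by linarith, ?_, by linarith, ?_, ?_, ?_⟩
      · rw [abs_neg]
        rw [abs_of_neg hu] at f2
        exact f2
      · rw [f4]; unfold Q; ring
      · rw [f5]; unfold Q; ring
      · have e1 : L A' B' C' (-u') (-v') (-r') (-s') = L A' B' C' u' v' r' s' := by
          unfold L; ring
        rw [e1]
        exact f6
    · exfalso
      rw [hu, abs_zero] at f2
      have hv : v' = 0 := abs_eq_zero.1 (le_antisymm f2 (abs_nonneg _))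
      rw [hu, hv] at f3
      simp at f3
    · refine ⟨u', v', r', s', hu, ?_, f3, f4, f5, f6⟩
      rw [abs_of_pos hu] at f2
      exact f2
  obtain ⟨hA', hC', hA2', hC2', hB', hdet⟩ := f1
  obtain ⟨x, hx⟩ : ∃ x : ℕ, (x : ℤ) = u₁ := ⟨u₁.toNat, Int.toNat_of_nonneg g1.le⟩
  subst hx
  have hx1 : 1 ≤ x := by omega
  have q1 : (x : ℤ) ^ 2 ≤ 2 * a * d := by
    have := Q_lower' haz hdet x v₁
    rw [← g4] at this
    exact this.trans (mul_le_mul_of_nonneg_right hC2' (by linarith))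
  have q2 : r₁ ^ 2 ≤ 2 * a * e := by
    have := Q_lower' haz hdet r₁ s₁
    rw [← g5] at this
    exact this.trans (mul_le_mul_of_nonneg_right hC2' (by linarith))
  have q3 : (d : ℤ) ≤ 6 * a * (x : ℤ) ^ 2 := by
    rw [g4]
    unfold Q
    have hv2 : v₁ ^ 2 ≤ (x : ℤ) ^ 2 := by
      rw [← sq_abs v₁]
      exact pow_le_pow_left₀ (abs_nonneg _) g2 2
    have huv : B' * ((x : ℤ) * v₁) ≤ a * (x : ℤ) ^ 2 := by
      calc B' * ((x : ℤ) * v₁) ≤ |B' * ((x : ℤ) * v₁)| := le_abs_self _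
        _ = |B'| * ((x : ℤ) * |v₁|) := by
            rw [abs_mul, abs_mul, abs_of_nonneg (show (0 : ℤ) ≤ x by omega)]
        _ ≤ a * ((x : ℤ) * x) := by gcongr
        _ = _ := by ring
    have hCv : C' * v₁ ^ 2 ≤ 2 * a * (x : ℤ) ^ 2 := by
      apply mul_le_mul hC2' hv2 (sq_nonneg _) (by linarith)
    have hAx : A' * (x : ℤ) ^ 2 ≤ 2 * a * (x : ℤ) ^ 2 :=
      mul_le_mul_of_nonneg_right hA2' (sq_nonneg _)
    linarith
  have hN : (n : ℤ) ^ 2 + a ≤ (1 + a) * n * ((1 + a) * n) := by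
    have k1 : (1 : ℤ) ≤ (n : ℤ) ^ 2 := one_le_pow₀ hnz
    have k2 : (0 : ℤ) ≤ ((a : ℤ)) ^ 2 * (n : ℤ) ^ 2 := by positivity
    have k3 : (a : ℤ) * 1 ≤ a * (n : ℤ) ^ 2 := mul_le_mul_of_nonneg_left k1 (by linarith)
    have k4 : (1 + (a : ℤ)) * n * ((1 + a) * n) =
        (n : ℤ) ^ 2 + 2 * (a * (n : ℤ) ^ 2) + (a : ℤ) ^ 2 * (n : ℤ) ^ 2 := by ring
    rw [k4]
    linarith
  have q4 : (d : ℤ) ≤ (1 + a) * n := by
    by_contra hc
    push Not at hc
    have h10 : ((1 + a) * n + 1) * ((1 + a) * n + 1) ≤ (d : ℤ) * e := by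
      apply mul_le_mul (by linarith) (by linarith) (by positivity) (by linarith)
    have h12 : (0 : ℤ) < (1 + a) * n := by positivity
    have h14 := hN
    rw [hz] at h10
    nlinarith
  have q5 : (x : ℤ) ^ 2 ≤ 2 * a * (1 + a) * n := by
    calc (x : ℤ) ^ 2 ≤ 2 * a * d := q1
      _ ≤ 2 * a * ((1 + a) * n) := by gcongr
      _ = _ := by ring
  have q6 : (x : ℤ) * |r₁| ≤ 2 * a * (1 + a) * n := by
    have h12 := mul_le_mul_of_nonneg_left hN (show (0 : ℤ) ≤ 4 * (a : ℤ) ^ 2 by positivity)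
    have h13 : ((x : ℤ) * |r₁|) ^ 2 ≤ (2 * (a : ℤ) * (1 + a) * n) ^ 2 := by
      have e1 : ((x : ℤ) * |r₁|) ^ 2 = (x : ℤ) ^ 2 * r₁ ^ 2 := by rw [mul_pow, sq_abs]
      have e2 : (x : ℤ) ^ 2 * r₁ ^ 2 ≤ (2 * (a : ℤ) * d) * (2 * (a : ℤ) * e) :=
        mul_le_mul q1 q2 (sq_nonneg _) (by positivity)
      have e3 : (2 * (a : ℤ) * d) * (2 * (a : ℤ) * e) = 4 * (a : ℤ) ^ 2 * ((n : ℤ) ^ 2 + a) := by
        rw [← hz]; ring
      have e4 : 4 * (a : ℤ) ^ 2 * ((1 + (a : ℤ)) * n * ((1 + a) * n)) =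
          (2 * (a : ℤ) * (1 + a) * n) ^ 2 := by ring
      rw [e1, ← e4]
      exact e2.trans (e3.le.trans h12)
    exact le_of_sq_le_sq h13 (by positivity)
  refine ⟨A', B', C', ⟨hA', hC', hA2', hC2', hB', hdet⟩, x, -v₁, r₁, s₁, hx1, ?_, ?_, ?_, g5, ?_, ?_,
    ?_, ?_, ?_⟩
  · rw [abs_neg]
    exact g2
  · linarith
  · rw [neg_neg]
    exact g4
  · rw [neg_neg]
    exact g6
  · exact_mod_cast q5
  · have h13 : ((x * r₁.natAbs : ℕ) : ℤ) ≤ ((2 * a * (1 + a) * n : ℕ) : ℤ) := by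
      push_cast
      exact q6
    exact_mod_cast h13
  · exact_mod_cast q1
  · exact_mod_cast q3

end Pool.Agent.H578.Gen
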