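import Pool.Agent.H578.Gen.Thue

/-!
# Normalised factorisations of `n ^ 2 + a`, for every `a` such that `-a` is no square
-/

set_option autoImplicit false

namespace Pool.Agent.H578.Gen

/-- the constant, as a natural number -/
def KN (a : ℤ) : ℕ := 30 * (1 + a.natAbs) ^ 3

theorem KN_cast (a : ℤ) : (KN a : ℤ) = KK a := by
  unfold KN KK
  push_cast
  rfl

theorem KN_one (a : ℤ) : 1 ≤ KN a := by
  unfold KN
  have : 1 ≤ (1 + a.natAbs) ^ 3 := Nat.one_le_pow _ _ (by omega)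
  omega

/-- normalised representation of a factorisation with `d ≤ e` -/
theorem reduceG (a : ℤ) (ha : ¬ IsSquare (-a)) (n : ℕ) (hn : 1 ≤ n) (d e : ℕ) (hd : 1 < d)
    (hde : d ≤ e) (hz : (d : ℤ) * e = (n : ℤ) ^ 2 + a) :
    ∃ A B C : ℤ, IsFormG a A B C ∧ ∃ (x : ℕ) (y r s : ℤ), 1 ≤ x ∧ |y| ≤ x ∧
      (x : ℤ) * s + y * r = 1 ∧ (d : ℤ) = Q A B C x (-y) ∧ (e : ℤ) = Q A B C r s ∧
      ((n : ℤ) = L A B C x (-y) r s ∨ -(n : ℤ) = L A B C x (-y) r s) ∧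
      x ^ 2 ≤ KN a * (1 + a.natAbs) * n ∧ x * r.natAbs ≤ KN a * (1 + a.natAbs) * n ∧
      x ^ 2 ≤ KN a * d ∧ d ≤ KN a * x ^ 2 := by
  have hnz : (1 : ℤ) ≤ n := by exact_mod_cast hn
  have hdz : (1 : ℤ) < d := by exact_mod_cast hd
  have hdez : (d : ℤ) ≤ e := by exact_mod_cast hde
  obtain ⟨A, B, C, u, v, r, s, hF, h6, h7, h8, h9, b1, b2, b3, b4⟩ :=
    rep_gen a ha d e n (by linarith) (by linarith) hnz hz
  obtain ⟨hA0, hC0, hsum, hdet⟩ := hF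
  have hK1 : (1 : ℤ) ≤ KK a := by rw [← KN_cast]; exact_mod_cast KN_one a
  -- the first variable is the larger one
  obtain ⟨A', B', C', u', v', r', s', f1, f2, f3, f4, f5, f6, f7, f8⟩ :
      ∃ A' B' C' u' v' r' s' : ℤ, IsFormG a A' B' C' ∧ |v'| ≤ |u'| ∧ u' * s' - v' * r' = 1 ∧
        (d : ℤ) = Q A' B' C' u' v' ∧ (e : ℤ) = Q A' B' C' r' s' ∧
        ((n : ℤ) = L A' B' C' u' v' r' s' ∨ -(n : ℤ) = L A' B' C' u' v' r' s') ∧
        u' ^ 2 ≤ KK a * d ∧ r' ^ 2 ≤ KK a * e := by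
    rcases le_total |v| |u| with huv | huv
    · exact ⟨A, B, C, u, v, r, s, ⟨hA0, hC0, hsum, hdet⟩, huv, h6, h7, h8, Or.inl h9, b1, b3⟩
    · refine ⟨C, B, A, v, u, -s, -r, ⟨hC0, hA0, by linarith, by linarith⟩, huv, by linarith, ?_, ?_,
        Or.inr ?_, b2, by rw [neg_sq]; exact b4⟩
      · rw [h7]; unfold Q; ring
      · rw [h8]; unfold Q; ring
      · rw [h9]; unfold L; ring
  -- and positive
  obtain ⟨u₁, v₁, r₁, s₁, g1, g2, g3, g4, g5, g6, g7, g8⟩ :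
      ∃ u₁ v₁ r₁ s₁ : ℤ, 0 < u₁ ∧ |v₁| ≤ u₁ ∧ u₁ * s₁ - v₁ * r₁ = 1 ∧
        (d : ℤ) = Q A' B' C' u₁ v₁ ∧ (e : ℤ) = Q A' B' C' r₁ s₁ ∧
        ((n : ℤ) = L A' B' C' u₁ v₁ r₁ s₁ ∨ -(n : ℤ) = L A' B' C' u₁ v₁ r₁ s₁) ∧
        u₁ ^ 2 ≤ KK a * d ∧ r₁ ^ 2 ≤ KK a * e := by
    rcases lt_trichotomy u' 0 with hu | hu | hu
    · refine ⟨-u', -v', -r', -s', by linarith, ?_, by linarith, ?_, ?_, ?_,
        by rw [neg_sq]; exact f7, by rw [neg_sq]; exact f8⟩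
      · rw [abs_neg]
        rw [abs_of_neg hu] at f2
        exact f2
      · rw [f4]; unfold Q; ring
      · rw [f5]; unfold Q; ring
      · have e1 : L A' B' C' (-u') (-v') (-r') (-s') = L A' B' C' u' v' r' s' := by
          unfold L; ring
        rw [e1]
        exact f6
    · exfalso
      rw [hu, abs_zero] at f2
      have hv : v' = 0 := abs_eq_zero.1 (le_antisymm f2 (abs_nonneg _))
      rw [hu, hv] at f3
      simp at f3
    · refine ⟨u', v', r', s', hu, ?_, f3, f4, f5, f6, f7, f8⟩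
      rw [abs_of_pos hu] at f2
      exact f2
  obtain ⟨hA', hC', hS', hdet'⟩ := f1
  obtain ⟨x, hx⟩ : ∃ x : ℕ, (x : ℤ) = u₁ := ⟨u₁.toNat, Int.toNat_of_nonneg g1.le⟩
  subst hx
  have hx1 : 1 ≤ x := by omega
  have q3 : (d : ℤ) ≤ KK a * (x : ℤ) ^ 2 := by
    rw [g4]
    unfold Q
    have hv2 : v₁ ^ 2 ≤ (x : ℤ) ^ 2 := by
      rw [← sq_abs v₁]
      exact pow_le_pow_left₀ (abs_nonneg _) g2 2
    have hx0 : (0 : ℤ) ≤ x := by omega
    have huv : B' * ((x : ℤ) * v₁) ≤ |B'| * (x : ℤ) ^ 2 := by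
      calc B' * ((x : ℤ) * v₁) ≤ |B' * ((x : ℤ) * v₁)| := le_abs_self _
        _ = |B'| * ((x : ℤ) * |v₁|) := by
            rw [abs_mul, abs_mul, abs_of_nonneg hx0]
        _ ≤ |B'| * ((x : ℤ) * x) := by gcongr
        _ = _ := by ring
    have hCv : C' * v₁ ^ 2 ≤ |C'| * (x : ℤ) ^ 2 :=
      (mul_le_mul_of_nonneg_right (le_abs_self C') (sq_nonneg _)).trans
        (mul_le_mul_of_nonneg_left hv2 (abs_nonneg _))
    have hAx : A' * (x : ℤ) ^ 2 ≤ |A'| * (x : ℤ) ^ 2 :=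
      mul_le_mul_of_nonneg_right (le_abs_self A') (sq_nonneg _)
    have hfin : (|A'| + 2 * |B'| + |C'|) * (x : ℤ) ^ 2 ≤ KK a * (x : ℤ) ^ 2 :=
      mul_le_mul_of_nonneg_right hS' (sq_nonneg _)
    linarith
  set α : ℤ := |a| with hα
  have hα0 : 0 ≤ α := abs_nonneg a
  have hαa : a ≤ α := le_abs_self a
  have hN : (n : ℤ) ^ 2 + a ≤ (1 + α) * (n : ℤ) ^ 2 := by
    have k1 : (1 : ℤ) ≤ (n : ℤ) ^ 2 := one_le_pow₀ hnz
    have k3 : α * 1 ≤ α * (n : ℤ) ^ 2 := mul_le_mul_of_nonneg_left k1 hα0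
    linarith
  have q4 : (d : ℤ) ≤ (1 + α) * n := by
    by_contra hc
    push Not at hc
    have h10 : ((1 + α) * n + 1) * ((1 + α) * n + 1) ≤ (d : ℤ) * e := by
      apply mul_le_mul (by linarith) (by linarith) (by positivity) (by linarith)
    have h12 : (0 : ℤ) < (1 + α) * n := by positivity
    have h13 : (1 + α) * (n : ℤ) ^ 2 ≤ ((1 + α) * n) * ((1 + α) * n) := by
      have h15 : (0 : ℤ) ≤ α * ((1 + α) * (n : ℤ) ^ 2) := by positivity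
      nlinarith
    rw [hz] at h10
    nlinarith
  have q5 : (x : ℤ) ^ 2 ≤ KK a * (1 + α) * n := by
    calc (x : ℤ) ^ 2 ≤ KK a * d := g7
      _ ≤ KK a * ((1 + α) * n) := by gcongr
      _ = _ := by ring
  have q6 : (x : ℤ) * |r₁| ≤ KK a * (1 + α) * n := by
    have h13 : ((x : ℤ) * |r₁|) ^ 2 ≤ (KK a * (1 + α) * n) ^ 2 := by
      have e1 : ((x : ℤ) * |r₁|) ^ 2 = (x : ℤ) ^ 2 * r₁ ^ 2 := by rw [mul_pow, sq_abs]
      have e2 : (x : ℤ) ^ 2 * r₁ ^ 2 ≤ (KK a * d) * (KK a * e) :=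
        mul_le_mul g7 g8 (sq_nonneg _) (by positivity)
      have e3 : (KK a * d) * (KK a * e) = KK a ^ 2 * ((n : ℤ) ^ 2 + a) := by
        rw [← hz]; ring
      have e4 : KK a ^ 2 * ((n : ℤ) ^ 2 + a) ≤ KK a ^ 2 * ((1 + α) * (n : ℤ) ^ 2) :=
        mul_le_mul_of_nonneg_left hN (sq_nonneg _)
      have e5 : KK a ^ 2 * ((1 + α) * (n : ℤ) ^ 2) ≤ (KK a * (1 + α) * n) ^ 2 := by
        have e6 : (0 : ℤ) ≤ KK a ^ 2 * (α * ((1 + α) * (n : ℤ) ^ 2)) := by positivity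
        have e7 : (KK a * (1 + α) * n) ^ 2 = KK a ^ 2 * ((1 + α) * (n : ℤ) ^ 2) +
          KK a ^ 2 * (α * ((1 + α) * (n : ℤ) ^ 2)) := by ring
        rw [e7]
        linarith
      rw [e1]
      linarith
    exact le_of_sq_le_sq h13 (by positivity)
  refine ⟨A', B', C', ⟨hA', hC', hS', hdet'⟩, x, -v₁, r₁, s₁, hx1, ?_, ?_, ?_, g5, ?_, ?_,
    ?_, ?_, ?_⟩
  · rw [abs_neg]
    exact g2
  · linarith
  · rw [neg_neg]
    exact g4
  · rw [neg_neg]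
    exact g6
  · have h13 : ((x ^ 2 : ℕ) : ℤ) ≤ ((KN a * (1 + a.natAbs) * n : ℕ) : ℤ) := by
      push_cast
      rw [KN_cast]
      exact q5
    exact_mod_cast h13
  · have h13 : ((x * r₁.natAbs : ℕ) : ℤ) ≤ ((KN a * (1 + a.natAbs) * n : ℕ) : ℤ) := by
      push_cast
      rw [KN_cast]
      exact q6
    exact_mod_cast h13
  · have h13 : ((x ^ 2 : ℕ) : ℤ) ≤ ((KN a * d : ℕ) : ℤ) := by
      push_cast
      rw [KN_cast]
      exact g7
    exact_mod_cast h13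
  · have h13 : ((d : ℕ) : ℤ) ≤ ((KN a * x ^ 2 : ℕ) : ℤ) := by
      push_cast
      rw [KN_cast]
      exact q3
    exact_mod_cast h13

end Pool.Agent.H578.Gen
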