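import Pool.Agent.H578.Gen.GY
import Pool.Agent.H578.Gen.RedG
import Pool.Agent.H578.Sec.Alg2
import Pool.Agent.Y577.PA.SX

/-!
# The factorisations of `n ^ 2 + a` for `n ^ 2 + a` rough: upper bound for one form (every `a`)
-/

set_option autoImplicit false

namespace Pool.Agent.H578.Gen

open Finset Filter Topology
open Pool.Agent.Y346.PA
open scoped Classical

/-- the integers `n ≤ X` with `n ^ 2 + a` rough and a normalised factorisation by the form `(A, B, C)`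
with `x` in a range -/
noncomputable def SSG (a : ℤ) (A B C : ℤ) (w : ℝ) (X : ℕ) (A1 B1 : ℝ) : Finset ℕ :=
  (Icc 1 X).filter (fun n : ℕ => (∀ p : ℕ, p.Prime → (p : ℤ) ∣ (n : ℤ) ^ 2 + a → (X : ℝ) ^ w ≤ p) ∧
    ∃ (x : ℕ) (y r s : ℤ), 1 ≤ x ∧ |y| ≤ x ∧ (x : ℤ) * s + y * r = 1 ∧
      (n : ℤ) ^ 2 + a = Q A B C x (-y) * Q A B C r s ∧
      ((n : ℤ) = L A B C x (-y) r s ∨ -(n : ℤ) = L A B C x (-y) r s) ∧
      x ^ 2 ≤ KN a * (1 + a.natAbs) * n ∧ x * r.natAbs ≤ KN a * (1 + a.natAbs) * n ∧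
      (X : ℝ) ^ w ≤ KN a * (x : ℝ) ^ 2 ∧ A1 ≤ 5 * (x : ℝ) ^ 2 ∧ (x : ℝ) ^ 2 ≤ B1)

theorem ssg_card (a : ℤ) (A B C : ℤ) (w A1 B1 : ℝ) (hw : 0 < w) (C0 X : ℕ) (hC : 1 / w ≤ C0)
    (hX : KN a * (1 + a.natAbs) < X) :
    (SSG a A B C w X A1 B1).card ≤ ∑ x ∈ ((Icc 1 (Nat.sqrt (KN a * (1 + a.natAbs) * X))).filter
      (fun x : ℕ => A1 ≤ 5 * (x : ℝ) ^ 2 ∧ (x : ℝ) ^ 2 ≤ B1)).filter
        (fun x : ℕ => (X : ℝ) ^ w ≤ KN a * (x : ℝ) ^ 2),
          (FxQ a A B C C0 x (KN a * (1 + a.natAbs) * X / x)).card := by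
  set κ : ℕ := KN a * (1 + a.natAbs) with hκ
  have hX0n : 0 < X := by omega
  have hX1r : (1 : ℝ) ≤ X := by exact_mod_cast hX0n
  have hX0 : (0 : ℝ) < X := by linarith
  rw [← Set.ncard_coe_finset (SSG a A B C w X A1 B1)]
  apply ncard_le_sum (↑(SSG a A B C w X A1 B1)) _
    (fun x => FxQ a A B C C0 x (κ * X / x))
    (fun x u => (L A B C x (-u.1) u.2 ((1 - u.1 * u.2) / x)).natAbs)
  intro n hn
  rw [mem_coe, SSG, mem_filter, mem_Icc] at hn
  obtain ⟨⟨hn1, hnX⟩, hrough, x, y, r, s, hx1, hyx, e1, e2, e3, hxn, hxr, hzx, hA, hB⟩ := hn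
  have hxz : (1 : ℤ) ≤ x := by exact_mod_cast hx1
  have hκX : κ * n ≤ κ * X := Nat.mul_le_mul_left _ hnX
  have hxx : x ^ 2 ≤ κ * X := hxn.trans hκX
  refine ⟨x, ?_, (y, r), ?_, ?_⟩
  · rw [mem_filter, mem_filter, mem_Icc]
    exact ⟨⟨⟨hx1, by rw [Nat.le_sqrt']; exact hxx⟩, hA, hB⟩, hzx⟩
  · have hrR : |r| ≤ ((κ * X / x : ℕ) : ℤ) := by
      have h1 : r.natAbs ≤ κ * X / x := by
        rw [Nat.le_div_iff_mul_le (by omega), mul_comm]
        exact hxr.trans hκX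
      rw [Int.abs_eq_natAbs]
      exact_mod_cast h1
    have hrs := abs_le.1 hrR
    have hys := abs_le.1 hyx
    unfold FxQ
    rw [mem_filter, mem_product, mem_Icc, mem_Icc]
    refine ⟨⟨⟨hys.1, hys.2⟩, ⟨hrs.1, hrs.2⟩⟩, ⟨-s, by linear_combination e1⟩, ?_⟩
    intro p hp hCp hpx hpnx _ _ hh
    unfold hitQ at hh
    simp only at hh
    have h9 : Q A B C x (-y) * Q A B C (x * r) (1 - y * r) =
        (x : ℤ) * x * ((n : ℤ) ^ 2 + a) := by
      have h10 : 1 - y * r = x * s := by linear_combination -e1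
      have h11 : Q A B C (x * r) (x * s) = (x : ℤ) * x * Q A B C r s := by
        unfold Q
        ring
      rw [h10, h11]
      rw [e2]
      ring
    rw [h9] at hh
    have hpz' : Prime (p : ℤ) := Nat.prime_iff_prime_int.1 hp
    have hpa : (p : ℤ) ∣ (n : ℤ) ^ 2 + a := by
      rcases (hpz'.dvd_mul).1 hh with h | h
      · rcases (hpz'.dvd_mul).1 h with h | h
        · exact absurd (Int.natCast_dvd_natCast.1 h) hpnx
        · exact absurd (Int.natCast_dvd_natCast.1 h) hpnx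
      · exact h
    have hpz := hrough p hp hpa
    have h11 : (p : ℝ) ^ (2 * C0) ≤ κ * X := by
      have h12 : (p ^ C0) ^ 2 ≤ κ * X := le_trans (Nat.pow_le_pow_left hpx 2) hxx
      rw [← pow_mul, mul_comm C0 2] at h12
      exact_mod_cast h12
    have h13 : (X : ℝ) ^ 2 ≤ (p : ℝ) ^ (2 * C0) := by
      calc (X : ℝ) ^ 2 = (X : ℝ) ^ (2 : ℝ) := by rw [← Real.rpow_natCast]; norm_num
        _ ≤ (X : ℝ) ^ (w * ((2 * C0 : ℕ) : ℝ)) := by
            apply Real.rpow_le_rpow_of_exponent_le (by linarith)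
            push_cast
            rw [div_le_iff₀ hw] at hC
            linarith
        _ = ((X : ℝ) ^ w) ^ (2 * C0) := by rw [Real.rpow_mul hX0.le, Real.rpow_natCast]
        _ ≤ (p : ℝ) ^ (2 * C0) := by gcongr
    have h14 : (κ : ℝ) < X := by exact_mod_cast hX
    nlinarith
  · simp only
    have h12 : (1 - y * r) / (x : ℤ) = s := by
      rw [show 1 - y * r = x * s by linear_combination -e1]
      exact Int.mul_ediv_cancel_left _ (by omega)
    rw [h12]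
    rcases e3 with h | h
    · rw [← h]
      simp
    · rw [← h]
      simp

theorem coreG (a : ℤ) (hsq : ¬ IsSquare (-a)) (A B C : ℤ) (hdet : A * C - B ^ 2 = a) (hC1 : C ≠ 0) (w : ℝ)
    (hw : 0 < w) : ∃ K : ℝ, 0 < K ∧
    ∀ᶠ X : ℕ in atTop, ∀ A1 B1 : ℝ, 0 < A1 → A1 ≤ 5 * B1 →
      ((SSG a A B C w X A1 B1).card : ℝ) ≤
        K * X / (Real.log X) ^ 2 * (1 + Real.log (5 * B1 / A1)) := by
  obtain ⟨c0, hc0⟩ := exists_nat_ge (1 / w)
  obtain ⟨C0, K, hC4, hCc, hK, x0, hG⟩ := lemGYQ a A B C hsq hdet hC1 c0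
  have hC : 1 / w ≤ C0 := hc0.trans (by exact_mod_cast hCc)
  obtain ⟨C8, hC8, hsx⟩ := Pool.Agent.Y577.PA.t_SX
  set κ : ℕ := KN a * (1 + a.natAbs) with hκ
  have hκ1 : 1 ≤ κ := by
    rw [hκ]
    exact Nat.mul_pos (KN_one a) (by omega)
  have hκr : (0 : ℝ) < κ := by exact_mod_cast hκ1
  have har : (1 : ℝ) ≤ KN a := by exact_mod_cast KN_one a
  refine ⟨16 * K * κ * C8 / w ^ 2, by positivity, ?_⟩
  have hlog : Tendsto (fun X : ℕ => Real.log (X : ℝ)) atTop atTop :=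
    Real.tendsto_log_atTop.comp tendsto_natCast_atTop_atTop
  have hpow : Tendsto (fun X : ℕ => (X : ℝ) ^ w) atTop atTop :=
    (tendsto_rpow_atTop hw).comp tendsto_natCast_atTop_atTop
  filter_upwards [hlog.eventually_ge_atTop 1, hlog.eventually_ge_atTop (2 * Real.log (KN a) / w),
    hpow.eventually_ge_atTop (KN a * (x0 : ℝ) ^ 2), eventually_ge_atTop (κ + 3)]
    with X h1 h2 h4 h6
  intro A1 B1 hA hAB
  have h6' : 3 ≤ X := by omega
  have hXr : (3 : ℝ) ≤ X := by exact_mod_cast h6'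
  have hX0 : (0 : ℝ) < X := by linarith
  set L' : ℝ := Real.log X with hL
  have hL0 : 0 < L' := by linarith
  set T : ℕ := Nat.sqrt (κ * X) with hT
  have hTsq : T ^ 2 ≤ κ * X := Nat.sqrt_le' _
  have hcard := ssg_card a A B C w A1 B1 hw C0 X hC (by omega)
  rw [← hκ, ← hT] at hcard
  set I : Finset ℕ := (Icc 1 T).filter (fun x : ℕ => A1 ≤ 5 * (x : ℝ) ^ 2 ∧ (x : ℝ) ^ 2 ≤ B1)
    with hI
  have hterm : ∀ x ∈ I.filter (fun x : ℕ => (X : ℝ) ^ w ≤ KN a * (x : ℝ) ^ 2),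
      ((FxQ a A B C C0 x (κ * X / x)).card : ℝ) ≤
      16 * K * κ * X / (w ^ 2 * L' ^ 2) * (((x : ℝ) / x.totient) ^ 8 / x) := by
    intro x hx
    rw [mem_filter, hI, mem_filter, mem_Icc] at hx
    obtain ⟨⟨⟨hx1, hxT⟩, -⟩, hxz⟩ := hx
    have hx0 : (0 : ℝ) < x := by exact_mod_cast hx1
    have hxx0 : x0 ≤ x := by
      have h7 : KN a * (x0 : ℝ) ^ 2 ≤ KN a * (x : ℝ) ^ 2 := h4.trans hxz
      have : (x0 : ℝ) ^ 2 ≤ (x : ℝ) ^ 2 := le_of_mul_le_mul_left h7 (by positivity)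
      have h7 : (x0 : ℝ) ≤ x := le_of_abs_le (abs_le_of_sq_le_sq this hx0.le)
      exact_mod_cast h7
    have hxsq : x ^ 2 ≤ κ * X := le_trans (Nat.pow_le_pow_left hxT 2) hTsq
    have hxR : x ≤ κ * X / x := by
      rw [Nat.le_div_iff_mul_le (by omega)]
      nlinarith
    have hRu : ((κ * X / x : ℕ) : ℝ) ≤ κ * X / x := by
      have := Nat.cast_div_le (α := ℝ) (m := κ * X) (n := x)
      push_cast at this
      exact this
    have hlogx : w * L' / 4 ≤ Real.log x := by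
      have h8 := Real.log_le_log (by positivity) hxz
      rw [Real.log_rpow hX0, Real.log_mul (by positivity) (by positivity), Real.log_pow] at h8
      push_cast at h8
      have h10 : 2 * Real.log (KN a) ≤ w * L' := by
        rw [div_le_iff₀ hw] at h2
        linarith
      linarith
    have hwL : 0 < w * L' / 4 := by positivity
    have hlx : (Real.log x) ^ (-2 : ℝ) ≤ 16 / (w ^ 2 * L' ^ 2) := by
      calc (Real.log x) ^ (-2 : ℝ) ≤ (w * L' / 4) ^ (-2 : ℝ) :=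
            Real.rpow_le_rpow_of_nonpos hwL hlogx (by norm_num)
        _ = 16 / (w ^ 2 * L' ^ 2) := by
            rw [Real.rpow_neg hwL.le]
            norm_num
            rw [div_pow]
            field_simp
            norm_num
    have hphi : (1 : ℝ) ≤ (x : ℝ) / x.totient := by
      rw [one_le_div (by exact_mod_cast Nat.totient_pos.2 (by omega))]
      exact_mod_cast Nat.totient_le x
    have h8 : ((x : ℝ) / x.totient) ^ 4 ≤ ((x : ℝ) / x.totient) ^ 8 :=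
      pow_le_pow_right₀ hphi (by norm_num)
    have hGx := hG x (κ * X / x) hxx0 hxR
    have hlp : 0 ≤ (Real.log x) ^ (-2 : ℝ) := Real.rpow_nonneg (by linarith) _
    calc ((FxQ a A B C C0 x (κ * X / x)).card : ℝ)
        ≤ K * ((κ * X / x : ℕ) : ℝ) * (Real.log x) ^ (-2 : ℝ) *
          ((x : ℝ) / x.totient) ^ 4 := hGx
      _ ≤ K * (κ * X / x) * (16 / (w ^ 2 * L' ^ 2)) * ((x : ℝ) / x.totient) ^ 8 := by
          gcongr
      _ = 16 * K * κ * X / (w ^ 2 * L' ^ 2) * (((x : ℝ) / x.totient) ^ 8 / x) := by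
          field_simp
  have hsum := Pool.Agent.H578.Sec.sum_div_real (fun x => ((x : ℝ) / x.totient) ^ 8) C8 hC8.le
    (fun n => by positivity) hsx T A1 B1 hA hAB
  rw [← hI] at hsum
  calc ((SSG a A B C w X A1 B1).card : ℝ)
      ≤ ∑ x ∈ I.filter (fun x : ℕ => (X : ℝ) ^ w ≤ KN a * (x : ℝ) ^ 2),
        ((FxQ a A B C C0 x (κ * X / x)).card : ℝ) := by exact_mod_cast hcard
    _ ≤ ∑ x ∈ I.filter (fun x : ℕ => (X : ℝ) ^ w ≤ KN a * (x : ℝ) ^ 2),
        16 * K * κ * X / (w ^ 2 * L' ^ 2) * (((x : ℝ) / x.totient) ^ 8 / x) :=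
        sum_le_sum hterm
    _ ≤ ∑ x ∈ I, 16 * K * κ * X / (w ^ 2 * L' ^ 2) * (((x : ℝ) / x.totient) ^ 8 / x) := by
        apply sum_le_sum_of_subset_of_nonneg (filter_subset _ _)
        intro x _ _
        positivity
    _ = 16 * K * κ * X / (w ^ 2 * L' ^ 2) * ∑ x ∈ I, ((x : ℝ) / x.totient) ^ 8 / x := by
        rw [mul_sum]
    _ ≤ 16 * K * κ * X / (w ^ 2 * L' ^ 2) * (C8 * (1 + Real.log (5 * B1 / A1))) := by gcongr
    _ = 16 * K * κ * C8 / w ^ 2 * X / L' ^ 2 * (1 + Real.log (5 * B1 / A1)) := by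
        field_simp

end Pool.Agent.H578.Gen
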