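import Pool.Agent.H578.Gen.BlockG

/-!
# Upper bound for the number of `n ≤ X` with `n ^ 2 + a` rough and a divisor in `[X ^ s, X ^ t]`

Here `a` is any integer such that `-a` is not a square.
-/

set_option autoImplicit false

namespace Pool.Agent.H578.Gen

open Finset Filter Topology
open scoped Classical

/-- all prime factors of `n ^ 2 + a` are at least `z` -/
def RoughG (a : ℤ) (z : ℝ) (n : ℕ) : Prop := ∀ p : ℕ, p.Prime → (p : ℤ) ∣ (n : ℤ) ^ 2 + a → z ≤ p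

/-- `n ^ 2 + a` has a proper divisor in `[D, E]` -/
def HasDivG (a : ℤ) (n : ℕ) (D E : ℝ) : Prop :=
  ∃ d : ℕ, (d : ℤ) ∣ (n : ℤ) ^ 2 + a ∧ 1 < d ∧ d < ((n : ℤ) ^ 2 + a).natAbs ∧ D ≤ (d : ℝ) ∧
    (d : ℝ) ≤ E

/-- the `n ≤ X` with `n ^ 2 + a` free of prime factors below `X ^ w` and with a proper divisor in
`[X ^ s, X ^ t]` -/
noncomputable def BBG (a : ℤ) (w s t : ℝ) (X : ℕ) : Finset ℕ :=
  (Icc 1 X).filter (fun n : ℕ => RoughG a ((X : ℝ) ^ w) n ∧
    HasDivG a n ((X : ℝ) ^ s) ((X : ℝ) ^ t))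

/-- the forms -/
noncomputable def FFG (a : ℤ) : Finset (ℤ × ℤ × ℤ) :=
  (Icc (-KK a) (KK a) ×ˢ Icc (-KK a) (KK a) ×ˢ Icc (-KK a) (KK a)).filter
    (fun f => f.1 * f.2.2 - f.2.1 ^ 2 = a ∧ f.2.2 ≠ 0)

theorem mem_FFG (a : ℤ) (A B C : ℤ) (h : IsFormG a A B C) : (A, B, C) ∈ FFG a := by
  obtain ⟨h1, h2, h3, h4⟩ := h
  have hA := abs_nonneg A
  have hB := abs_nonneg B
  have hC := abs_nonneg C
  have hA' := abs_le.1 (show |A| ≤ KK a by linarith)
  have hB' := abs_le.1 (show |B| ≤ KK a by linarith)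
  have hC' := abs_le.1 (show |C| ≤ KK a by linarith)
  unfold FFG
  rw [mem_filter, mem_product, mem_product, mem_Icc, mem_Icc, mem_Icc]
  exact ⟨⟨⟨hA'.1, hA'.2⟩, ⟨hB'.1, hB'.2⟩, ⟨hC'.1, hC'.2⟩⟩, h4, h2⟩

theorem rough_divG {a : ℤ} {n : ℕ} {z : ℝ} (h : RoughG a z n) {d : ℕ}
    (hd : (d : ℤ) ∣ (n : ℤ) ^ 2 + a) (h1 : 1 < d) : z ≤ d := by
  obtain ⟨p, hp, hpd⟩ := Nat.exists_prime_and_dvd (show d ≠ 1 by omega)
  have h2 := h p hp ((Int.natCast_dvd_natCast.2 hpd).trans hd)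
  have h3 : p ≤ d := Nat.le_of_dvd (by omega) hpd
  have h4 : (p : ℝ) ≤ d := by exact_mod_cast h3
  linarith

theorem bbG_le (a : ℤ) (ha : ¬ IsSquare (-a)) (w : ℝ) (hw : 0 < w) : ∃ C : ℝ, 0 < C ∧ ∀ s t : ℝ,
    s < t → ∀ᶠ X : ℕ in atTop,
      ((BBG a w s t X).card : ℝ) ≤ C * (t - s) * X / Real.log X := by
  have hex : ∀ f : ℤ × ℤ × ℤ, ∃ K : ℝ, 0 < K ∧ (f ∈ FFG a →
      ∀ᶠ X : ℕ in atTop, ∀ A1 B1 : ℝ, 0 < A1 → A1 ≤ 5 * B1 →
      ((SSG a f.1 f.2.1 f.2.2 w X A1 B1).card : ℝ) ≤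
        K * X / (Real.log X) ^ 2 * (1 + Real.log (5 * B1 / A1))) := by
    intro f
    by_cases hf : f ∈ FFG a
    · have hf' := hf
      unfold FFG at hf'
      rw [mem_filter] at hf'
      obtain ⟨K, hK, h⟩ := coreG a ha f.1 f.2.1 f.2.2 hf'.2.1 hf'.2.2 w hw
      exact ⟨K, hK, fun _ => h⟩
    · exact ⟨1, one_pos, fun h => absurd h hf⟩
  choose K hK0 hK using hex
  set S : ℝ := ∑ f ∈ FFG a, K f with hS
  have hS0 : 0 ≤ S := sum_nonneg fun f _ => (hK0 f).le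
  set κ : ℝ := (KN a : ℝ) with hκ
  have hκ1 : (1 : ℝ) ≤ κ := by rw [hκ]; exact_mod_cast KN_one a
  have hκ0 : (0 : ℝ) < κ := by linarith
  refine ⟨1 + 5 * S, by positivity, ?_⟩
  intro s t hst
  set τ : ℝ := t - s with hτ
  have hτ0 : 0 < τ := by linarith
  set ε : ℝ := min (τ / 4) (1 / 2) with hε
  have hε0 : 0 < ε := lt_min (by positivity) (by norm_num)
  have hε1 : ε ≤ τ / 4 := min_le_left _ _
  have hε2 : ε ≤ 1 / 2 := min_le_right _ _
  have hlog : Tendsto (fun X : ℕ => Real.log (X : ℝ)) atTop atTop :=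
    Real.tendsto_log_atTop.comp tendsto_natCast_atTop_atTop
  have hsmall : ∀ᶠ X : ℕ in atTop, (X : ℝ) ^ (1 - ε) * Real.log X ≤ τ * X := by
    have h1 := (isLittleO_log_rpow_atTop hε0).def (c := τ) hτ0
    have h2 := (tendsto_natCast_atTop_atTop (R := ℝ)).eventually h1
    filter_upwards [h2, eventually_ge_atTop 1] with X h3 h4
    have hX1 : (1 : ℝ) ≤ X := by exact_mod_cast h4
    have hX0 : (0 : ℝ) < X := by linarith
    rw [Real.norm_of_nonneg (Real.log_nonneg hX1), Real.norm_of_nonneg (by positivity)] at h3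
    calc (X : ℝ) ^ (1 - ε) * Real.log X ≤ (X : ℝ) ^ (1 - ε) * (τ * (X : ℝ) ^ ε) := by
          gcongr
      _ = τ * ((X : ℝ) ^ (1 - ε) * (X : ℝ) ^ ε) := by ring
      _ = τ * X := by
          rw [← Real.rpow_add hX0]
          norm_num
  have hall : ∀ᶠ X : ℕ in atTop, ∀ f ∈ FFG a, ∀ A1 B1 : ℝ, 0 < A1 → A1 ≤ 5 * B1 →
      ((SSG a f.1 f.2.1 f.2.2 w X A1 B1).card : ℝ) ≤
        K f * X / (Real.log X) ^ 2 * (1 + Real.log (5 * B1 / A1)) :=
    (Finset.eventually_all (FFG a)).2 fun f hf => hK f hf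
  filter_upwards [hall, hsmall, hlog.eventually_ge_atTop 1,
    hlog.eventually_ge_atTop ((1 + Real.log (4 * κ ^ 2)) / τ),
    eventually_ge_atTop (2 * a.natAbs + 3)]
    with X h1 h3 h4 h5 h6
  have hX3 : 3 ≤ X := by omega
  have hXr : (3 : ℝ) ≤ X := by exact_mod_cast hX3
  have hX0 : (0 : ℝ) < X := by linarith
  have hX1 : (1 : ℝ) ≤ X := by linarith
  have haX : 2 * |(a : ℝ)| + 3 ≤ X := by
    have h7 : ((2 * a.natAbs + 3 : ℕ) : ℝ) ≤ X := by exact_mod_cast h6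
    push_cast at h7
    rw [Nat.cast_natAbs] at h7
    push_cast at h7
    exact h7
  set L' : ℝ := Real.log X with hL
  have hL0 : 0 < L' := by linarith
  have hτL : 1 + Real.log (4 * κ ^ 2) ≤ τ * L' := by
    rw [div_le_iff₀ hτ0] at h5
    linarith
  set A1 : ℝ := 5 * (X : ℝ) ^ s / κ with hA1
  set B1 : ℝ := κ * (X : ℝ) ^ t with hB1
  set A2 : ℝ := 5 * (X : ℝ) ^ (2 - 2 * ε - t) / (2 * κ) with hA2
  set B2 : ℝ := 2 * κ * (X : ℝ) ^ (2 - s) with hB2
  have hA1' : 0 < A1 := by positivity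
  have hA2' : 0 < A2 := by positivity
  have hAB1 : A1 ≤ 5 * B1 := by
    have h7 : (X : ℝ) ^ s ≤ (X : ℝ) ^ t := Real.rpow_le_rpow_of_exponent_le hX1 hst.le
    calc A1 ≤ 5 * (X : ℝ) ^ s / 1 := by
          rw [hA1]
          gcongr
      _ ≤ 5 * (1 * (X : ℝ) ^ t) := by linarith
      _ ≤ 5 * B1 := by
          rw [hB1]
          gcongr
  have hAB2 : A2 ≤ 5 * B2 := by
    have h7 : (X : ℝ) ^ (2 - 2 * ε - t) ≤ (X : ℝ) ^ (2 - s) :=
      Real.rpow_le_rpow_of_exponent_le hX1 (by linarith)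
    calc A2 ≤ 5 * (X : ℝ) ^ (2 - 2 * ε - t) / 1 := by
          rw [hA2]
          gcongr
          linarith
      _ ≤ 5 * (1 * (X : ℝ) ^ (2 - s)) := by linarith
      _ ≤ 5 * B2 := by
          rw [hB2]
          gcongr
          linarith
  have hsub : BBG a w s t X ⊆ (range (⌊(X : ℝ) ^ (1 - ε)⌋₊ + 1)).erase 0 ∪
      (FFG a).biUnion (fun f => SSG a f.1 f.2.1 f.2.2 w X A1 B1 ∪
        SSG a f.1 f.2.1 f.2.2 w X A2 B2) := by
    intro n hn
    rw [BBG, mem_filter, mem_Icc] at hn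
    obtain ⟨⟨hn1, hnX⟩, hrough, d, hd, hd1, hdn, hdD, hdE⟩ := hn
    rw [mem_union, mem_biUnion]
    by_cases hsm : (n : ℝ) ≤ (X : ℝ) ^ (1 - ε)
    · left
      rw [mem_erase, mem_range]
      exact ⟨by omega, Nat.lt_succ_of_le (Nat.le_floor hsm)⟩
    · right
      push Not at hsm
      have hnXr : (n : ℝ) ≤ X := by exact_mod_cast hnX
      -- the value is positive
      have hn2 : ((X : ℝ) ^ (1 - ε)) ^ 2 ≤ (n : ℝ) ^ 2 :=
        pow_le_pow_left₀ (by positivity) hsm.le 2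
      have hn3 : (X : ℝ) ≤ (n : ℝ) ^ 2 := by
        refine le_trans ?_ hn2
        rw [← Real.rpow_natCast, ← Real.rpow_mul hX0.le]
        calc (X : ℝ) = (X : ℝ) ^ (1 : ℝ) := (Real.rpow_one _).symm
          _ ≤ (X : ℝ) ^ ((1 - ε) * ((2 : ℕ) : ℝ)) := by
              apply Real.rpow_le_rpow_of_exponent_le hX1
              push_cast
              linarith
      have haabs := abs_le.1 (le_refl |(a : ℝ)|)
      have hlow0 : (n : ℝ) ^ 2 ≤ 2 * ((n : ℝ) ^ 2 + a) := by linarith [haabs.1]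
      have hup0 : (n : ℝ) ^ 2 + a ≤ 2 * (X : ℝ) ^ 2 := by
        have h7 : (n : ℝ) ^ 2 ≤ (X : ℝ) ^ 2 := pow_le_pow_left₀ (Nat.cast_nonneg _) hnXr 2
        have h8 : (X : ℝ) ≤ (X : ℝ) ^ 2 := by nlinarith
        linarith [haabs.2, abs_nonneg (a : ℝ)]
      have hpos : (0 : ℤ) < (n : ℤ) ^ 2 + a := by
        have h7 : (0 : ℝ) < (n : ℝ) ^ 2 + a := by linarith
        exact_mod_cast h7
      obtain ⟨M, hM⟩ : ∃ M : ℕ, (M : ℤ) = (n : ℤ) ^ 2 + a :=
        ⟨((n : ℤ) ^ 2 + a).toNat, Int.toNat_of_nonneg hpos.le⟩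
      rw [← hM, Int.natCast_dvd_natCast] at hd
      rw [← hM, Int.natAbs_natCast] at hdn
      have hMr : (M : ℝ) = (n : ℝ) ^ 2 + a := by exact_mod_cast hM
      obtain ⟨e, he⟩ := hd
      have he1 : 1 < e := by
        by_contra hc
        have : e = 0 ∨ e = 1 := by omega
        rcases this with rfl | rfl
        · omega
        · omega
      have her : ((n : ℝ) ^ 2 + a) = d * e := by
        rw [← hMr, he]
        push_cast
        ring
      have hez : (d : ℤ) * e = (n : ℤ) ^ 2 + a := by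
        rw [← hM, he]
        push_cast
        ring
      have hd0 : (0 : ℝ) < d := by exact_mod_cast (show 0 < d by omega)
      rcases le_total d e with hle | hle
      · obtain ⟨A, B, C, hF, x, y, r, s', g1, g2, g3, g4, g5, g6, g7, g8, g9, g10⟩ :=
          reduceG a ha n hn1 d e hd1 hle hez
        refine ⟨(A, B, C), mem_FFG a A B C hF, ?_⟩
        rw [mem_union]
        left
        have g9r : (x : ℝ) ^ 2 ≤ κ * d := by rw [hκ]; exact_mod_cast g9
        have g10r : (d : ℝ) ≤ κ * (x : ℝ) ^ 2 := by rw [hκ]; exact_mod_cast g10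
        rw [SSG, mem_filter, mem_Icc]
        refine ⟨⟨hn1, hnX⟩, hrough, x, y, r, s', g1, g2, g3, ?_, g6, g7, g8, ?_, ?_, ?_⟩
        · rw [← g4, ← g5, hez]
        · exact (rough_divG hrough ⟨e, hez.symm⟩ hd1).trans g10r
        · rw [hA1, div_le_iff₀ hκ0]
          linarith
        · rw [hB1]
          refine g9r.trans ?_
          gcongr
      · obtain ⟨A, B, C, hF, x, y, r, s', g1, g2, g3, g4, g5, g6, g7, g8, g9, g10⟩ :=
          reduceG a ha n hn1 e d he1 hle (by rw [← hez]; ring)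
        refine ⟨(A, B, C), mem_FFG a A B C hF, ?_⟩
        rw [mem_union]
        right
        have g9r : (x : ℝ) ^ 2 ≤ κ * e := by rw [hκ]; exact_mod_cast g9
        have g10r : (e : ℝ) ≤ κ * (x : ℝ) ^ 2 := by rw [hκ]; exact_mod_cast g10
        have hlow : (X : ℝ) ^ (2 - 2 * ε - t) ≤ 2 * e := by
          have h8 : ((X : ℝ) ^ (1 - ε)) ^ 2 = (X : ℝ) ^ (2 - 2 * ε - t) * (X : ℝ) ^ t := by
            rw [← Real.rpow_natCast, ← Real.rpow_mul hX0.le, ← Real.rpow_add hX0]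
            congr 1
            push_cast
            ring
          rw [h8] at hn2
          have h9 : (d : ℝ) * e ≤ (X : ℝ) ^ t * e := by gcongr
          have h10 : (X : ℝ) ^ t * (X : ℝ) ^ (2 - 2 * ε - t) ≤ (X : ℝ) ^ t * (2 * e) := by
            rw [her] at hlow0
            linarith
          exact le_of_mul_le_mul_left h10 (by positivity)
        have hup : (e : ℝ) ≤ 2 * (X : ℝ) ^ (2 - s) := by
          have h9 : (X : ℝ) ^ 2 = (X : ℝ) ^ s * (X : ℝ) ^ (2 - s) := by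
            rw [← Real.rpow_add hX0, ← Real.rpow_natCast]
            congr 1
            push_cast
            ring
          have h10 : (X : ℝ) ^ s * e ≤ d * e := by gcongr
          have h11 : (X : ℝ) ^ s * e ≤ (X : ℝ) ^ s * (2 * (X : ℝ) ^ (2 - s)) := by
            calc (X : ℝ) ^ s * e ≤ d * e := h10
              _ = (n : ℝ) ^ 2 + a := her.symm
              _ ≤ 2 * (X : ℝ) ^ 2 := hup0
              _ = (X : ℝ) ^ s * (2 * (X : ℝ) ^ (2 - s)) := by rw [h9]; ring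
          exact le_of_mul_le_mul_left h11 (by positivity)
        rw [SSG, mem_filter, mem_Icc]
        refine ⟨⟨hn1, hnX⟩, hrough, x, y, r, s', g1, g2, g3, ?_, g6, g7, g8, ?_, ?_, ?_⟩
        · rw [← g4, ← g5, ← hez]
          ring
        · exact (rough_divG hrough ⟨d, by rw [← hez]; ring⟩ he1).trans g10r
        · rw [hA2, div_le_iff₀ (by positivity)]
          linarith
        · rw [hB2]
          calc (x : ℝ) ^ 2 ≤ κ * e := g9r
            _ ≤ κ * (2 * (X : ℝ) ^ (2 - s)) := by gcongr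
            _ = _ := by ring
  have hκ2 : (1 : ℝ) ≤ κ ^ 2 := one_le_pow₀ hκ1
  have hlg : 0 ≤ Real.log (4 * κ ^ 2) := Real.log_nonneg (by linarith)
  have hl1 : 1 + Real.log (5 * B1 / A1) ≤ 2 * (τ * L') := by
    have h7 : 5 * B1 / A1 = κ ^ 2 * (X : ℝ) ^ τ := by
      rw [hA1, hB1, hτ, Real.rpow_sub hX0]
      field_simp
    rw [h7, Real.log_mul (by positivity) (by positivity), Real.log_rpow hX0]
    have h8 : Real.log (κ ^ 2) ≤ Real.log (4 * κ ^ 2) :=
      Real.log_le_log (by positivity) (by linarith)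
    linarith
  have hl2 : 1 + Real.log (5 * B2 / A2) ≤ 3 * (τ * L') := by
    have h7 : 5 * B2 / A2 = (4 * κ ^ 2) * (X : ℝ) ^ (τ + 2 * ε) := by
      have h8 : (X : ℝ) ^ (τ + 2 * ε) = (X : ℝ) ^ (2 - s) / (X : ℝ) ^ (2 - 2 * ε - t) := by
        rw [← Real.rpow_sub hX0]
        congr 1
        rw [hτ]
        ring
      rw [h8, hA2, hB2]
      have h9 : (0 : ℝ) < (X : ℝ) ^ (2 - 2 * ε - t) := by positivity
      field_simp
      ring
    rw [h7, Real.log_mul (by positivity) (by positivity), Real.log_rpow hX0]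
    have h8 : (τ + 2 * ε) * L' ≤ 3 / 2 * (τ * L') := by
      have : τ + 2 * ε ≤ 3 / 2 * τ := by linarith
      calc (τ + 2 * ε) * L' ≤ (3 / 2 * τ) * L' := by gcongr
        _ = _ := by ring
    linarith
  have hcard0 : (((range (⌊(X : ℝ) ^ (1 - ε)⌋₊ + 1)).erase 0).card : ℝ) ≤ (X : ℝ) ^ (1 - ε) := by
    rw [card_erase_of_mem (mem_range.2 (by omega)), card_range]
    simp only [Nat.add_sub_cancel]
    exact Nat.floor_le (by positivity)
  have hcard : ((BBG a w s t X).card : ℝ) ≤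
      (((range (⌊(X : ℝ) ^ (1 - ε)⌋₊ + 1)).erase 0).card : ℝ) +
        ∑ f ∈ FFG a, (((SSG a f.1 f.2.1 f.2.2 w X A1 B1).card : ℝ) +
          ((SSG a f.1 f.2.1 f.2.2 w X A2 B2).card : ℝ)) := by
    have h7 := (card_le_card hsub).trans (card_union_le _ _)
    have h8 := card_biUnion_le (s := FFG a) (t := fun f => SSG a f.1 f.2.1 f.2.2 w X A1 B1 ∪
      SSG a f.1 f.2.1 f.2.2 w X A2 B2)
    have h9 : ∑ f ∈ FFG a, (SSG a f.1 f.2.1 f.2.2 w X A1 B1 ∪ SSG a f.1 f.2.1 f.2.2 w X A2 B2).card ≤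
        ∑ f ∈ FFG a, ((SSG a f.1 f.2.1 f.2.2 w X A1 B1).card +
          (SSG a f.1 f.2.1 f.2.2 w X A2 B2).card) := sum_le_sum fun f _ => card_union_le _ _
    have h10 : (BBG a w s t X).card ≤ ((range (⌊(X : ℝ) ^ (1 - ε)⌋₊ + 1)).erase 0).card +
        ∑ f ∈ FFG a, ((SSG a f.1 f.2.1 f.2.2 w X A1 B1).card +
          (SSG a f.1 f.2.1 f.2.2 w X A2 B2).card) := by omega
    exact_mod_cast h10
  have hsumle : ∑ f ∈ FFG a, (((SSG a f.1 f.2.1 f.2.2 w X A1 B1).card : ℝ) +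
          ((SSG a f.1 f.2.1 f.2.2 w X A2 B2).card : ℝ)) ≤
      ∑ f ∈ FFG a, K f * (5 * τ * X / L') := by
    apply sum_le_sum
    intro f hf
    have hc1 := h1 f hf A1 B1 hA1' hAB1
    have hc2 := h1 f hf A2 B2 hA2' hAB2
    have hfac0 : 0 ≤ K f * X / L' ^ 2 := by
      have := hK0 f
      positivity
    have hS1 : ((SSG a f.1 f.2.1 f.2.2 w X A1 B1).card : ℝ) ≤ K f * X / L' ^ 2 * (2 * (τ * L')) :=
      hc1.trans (mul_le_mul_of_nonneg_left hl1 hfac0)
    have hS2 : ((SSG a f.1 f.2.1 f.2.2 w X A2 B2).card : ℝ) ≤ K f * X / L' ^ 2 * (3 * (τ * L')) :=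
      hc2.trans (mul_le_mul_of_nonneg_left hl2 hfac0)
    calc _ ≤ K f * X / L' ^ 2 * (2 * (τ * L')) + K f * X / L' ^ 2 * (3 * (τ * L')) := by linarith
      _ = K f * (5 * τ * X / L') := by
          field_simp
          ring
  have hS0' : (X : ℝ) ^ (1 - ε) ≤ τ * X / L' := by
    rw [le_div_iff₀ hL0]
    exact h3
  rw [← sum_mul] at hsumle
  calc ((BBG a w s t X).card : ℝ)
      ≤ τ * X / L' + S * (5 * τ * X / L') := by linarith
    _ = (1 + 5 * S) * τ * X / L' := by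
        field_simp

end Pool.Agent.H578.Gen
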