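import Pool.Agent.Y346.PA.H2a
import Pool.Agent.Y241.PA.LDBase
import Pool.Agent.H578.Gen.Alg

/-!
# Local densities for the factorisations of `n ^ 2 + a`
(adapted from `Pool.Agent.H578.Sec.LD4`)
-/

set_option autoImplicit false

namespace Pool.Agent.H578.Gen

open Finset Pool.Agent.Y241.PA Pool.Agent.Y346.PA

theorem ldgen (p : ℕ) [Fact p.Prime] (i j : ZMod p) (hij : i ≠ j) (x : ZMod p) (hx : x ≠ 0)
    (P : ZMod p × ZMod p → Prop) [DecidablePred P]
    (hP : ∀ t, P t ↔ ((t.1 = i * x ∨ t.1 = j * x) ∨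
      (t.2 * (t.1 - i * x) = 1 ∨ t.2 * (t.1 - j * x) = 1))) :
    4 * p ≤ ((univ : Finset (ZMod p × ZMod p)).filter P).card + 16 ∧
    ((univ : Finset (ZMod p × ZMod p)).filter P).card ≤ 4 * p := by
  classical
  have hcard : Fintype.card (ZMod p) = p := ZMod.card p
  have hp2 : 2 ≤ p := (Fact.out : p.Prime).two_le
  set T := (univ : Finset (ZMod p × ZMod p)).filter P with hT
  let A : ZMod p → Finset (ZMod p × ZMod p) := fun e => univ.filter (fun t => t.1 = e * x)
  let B : ZMod p → Finset (ZMod p × ZMod p) := fun e =>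
    univ.filter (fun t => (0 + 1 * t.2) * (-(e * x) + 1 * t.1) = 1)
  have hA : ∀ e, (A e).card = p := by
    intro e
    have h1 : A e = ({e * x} : Finset (ZMod p)) ×ˢ (univ : Finset (ZMod p)) := by
      ext ⟨y, r⟩
      simp [A, eq_comm]
    rw [h1, card_product, card_singleton, one_mul, card_univ, hcard]
  have hB : ∀ e, (B e).card = p - 1 := by
    intro e
    have := card_hyp (F := ZMod p) 0 1 (-(e * x)) 1 1 one_ne_zero one_ne_zero one_ne_zero
    rw [hcard] at this
    exact this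
  have hTU : T = (A i ∪ A j) ∪ (B i ∪ B j) := by
    ext ⟨y, r⟩
    simp only [hT, A, B, mem_filter, mem_univ, true_and, mem_union, hP]
    have e3 : ∀ e : ZMod p, r * (y - e * x) = 1 ↔ (0 + 1 * r) * (-(e * x) + 1 * y) = 1 := by
      intro e
      constructor
      · intro h
        linear_combination h
      · intro h
        linear_combination h
    rw [e3, e3]
  -- the hyperbolas are disjoint, and so are the lines
  have hdA : Disjoint (A i) (A j) := by
    rw [Finset.disjoint_left]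
    rintro ⟨y, r⟩ h1 h2
    simp only [A, mem_filter, mem_univ, true_and] at h1 h2
    rw [h1] at h2
    exact hij (mul_right_cancel₀ hx h2)
  have hdB : Disjoint (B i) (B j) := by
    rw [Finset.disjoint_left]
    rintro ⟨y, r⟩ h1 h2
    simp only [B, mem_filter, mem_univ, true_and] at h1 h2
    have h3 : r * x * (i - j) = 0 := by linear_combination h2 - h1
    rcases mul_eq_zero.1 h3 with h4 | h4
    · rcases mul_eq_zero.1 h4 with h5 | h5
      · rw [h5] at h1
        simp at h1
      · exact hx h5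
    · exact hij (sub_eq_zero.1 h4)
  have hcA : (A i ∪ A j).card = 2 * p := by
    rw [card_union_of_disjoint hdA, hA, hA]
    ring
  have hcB : (B i ∪ B j).card = 2 * (p - 1) := by
    rw [card_union_of_disjoint hdB, hB, hB]
    ring
  have hcI : ((A i ∪ A j) ∩ (B i ∪ B j)).card ≤ 2 := by
    refine (Finset.card_le_card (t := {(i * x, ((i - j) * x)⁻¹),
      (j * x, ((j - i) * x)⁻¹)}) ?_).trans Finset.card_le_two
    rintro ⟨y, r⟩ h
    simp only [A, B, mem_inter, mem_union, mem_filter, mem_univ, true_and] at h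
    simp only [mem_insert, mem_singleton, Prod.mk.injEq]
    have hne1 : (i - j) * x ≠ 0 := mul_ne_zero (sub_ne_zero.2 hij) hx
    have hne2 : (j - i) * x ≠ 0 := mul_ne_zero (sub_ne_zero.2 hij.symm) hx
    rcases h with ⟨h1 | h1, h2 | h2⟩
    · rw [h1] at h2
      ring_nf at h2
      exact absurd h2 zero_ne_one
    · left
      refine ⟨h1, ?_⟩
      rw [h1] at h2
      apply eq_inv_of_mul_eq_one_left
      linear_combination h2
    · right
      refine ⟨h1, ?_⟩
      rw [h1] at h2
      apply eq_inv_of_mul_eq_one_left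
      linear_combination h2
    · rw [h1] at h2
      ring_nf at h2
      exact absurd h2 zero_ne_one
  have hsum := Finset.card_union_add_card_inter (A i ∪ A j) (B i ∪ B j)
  rw [← hTU, hcA, hcB] at hsum
  constructor
  · omega
  · omega

/-- the sieve condition for factorisations -/
def hitQ (A B C : ℤ) (x : ℕ) (p : ℕ) (y r : ℤ) : Prop :=
  (p : ℤ) ∣ Q A B C x (-y) * Q A B C (x * r) (1 - y * r)

theorem hitQ_per (A B C : ℤ) (x p : ℕ) (y r k l : ℤ) :
    hitQ A B C x p (y + p * k) (r + p * l) ↔ hitQ A B C x p y r := by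
  unfold hitQ Q
  rw [← ZMod.intCast_zmod_eq_zero_iff_dvd, ← ZMod.intCast_zmod_eq_zero_iff_dvd]
  push_cast
  rw [ZMod.natCast_self]
  simp only [zero_mul, add_zero]

/-- the primes for which `-a` is a square -/
def SQ (a : ℤ) (p : ℕ) : Prop := ∃ m : ℤ, (p : ℤ) ∣ m ^ 2 + a

open scoped Classical in
theorem ggQ (a A B C : ℤ) (hdet : A * C - B ^ 2 = a) (x p : ℕ) (hp : p.Prime) (h3 : SQ a p)
    (hx : ¬ p ∣ x) (ha : ¬ (p : ℤ) ∣ 2 * a) (hC : ¬ (p : ℤ) ∣ C) :
    4 / (p : ℝ) - 16 / (p : ℝ) ^ 2 ≤ gg (hitQ A B C x) p ∧ gg (hitQ A B C x) p ≤ 4 / p := by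
  have : Fact p.Prime := ⟨hp⟩
  have hx0 : (x : ZMod p) ≠ 0 := by
    rw [Ne, ZMod.natCast_eq_zero_iff]
    exact hx
  have hC0 : (C : ZMod p) ≠ 0 := by
    rw [Ne, ZMod.intCast_zmod_eq_zero_iff_dvd]
    exact hC
  have ha0 : ((2 * a : ℤ) : ZMod p) ≠ 0 := by
    rw [Ne, ZMod.intCast_zmod_eq_zero_iff_dvd]
    exact ha
  push_cast at ha0
  obtain ⟨m, hm⟩ := h3
  have hm' : (m : ZMod p) ^ 2 + a = 0 := by
    have := (ZMod.intCast_zmod_eq_zero_iff_dvd (m ^ 2 + a) p).2 hm
    push_cast at this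
    exact this
  have hdet' : (A : ZMod p) * C - B ^ 2 = a := by
    have : ((A * C - B ^ 2 : ℤ) : ZMod p) = (a : ℤ) := by rw [hdet]
    push_cast at this
    exact this
  have hm0 : (2 * m : ZMod p) ≠ 0 := by
    intro h
    apply ha0
    rcases mul_eq_zero.1 h with h | h
    · rw [h, zero_mul]
    · rw [h] at hm'
      have : (a : ZMod p) = 0 := by linear_combination hm'
      rw [this, mul_zero]
  set i : ZMod p := (B + m) / C with hi
  set j : ZMod p := (B - m) / C with hj
  have hiC : i * C = B + m := by rw [hi]; field_simp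
  have hjC : j * C = B - m := by rw [hj]; field_simp
  have hij : i ≠ j := by
    intro h
    apply hm0
    have : (i - j) * C = 2 * m := by linear_combination hiC - hjC
    rw [← this, h, sub_self, zero_mul]
  -- the two factorisations
  have e1 : ∀ y : ZMod p, (A : ZMod p) * x ^ 2 + 2 * B * (x * (-y)) + C * (-y) ^ 2 =
      C * ((y - i * x) * (y - j * x)) := by
    intro y
    apply mul_left_cancel₀ hC0
    have f1 : (C : ZMod p) * (C * ((y - i * x) * (y - j * x))) =
        (C * y - (i * C) * x) * (C * y - (j * C) * x) := by ring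
    rw [f1, hiC, hjC]
    linear_combination (x : ZMod p) ^ 2 * hdet' + x ^ 2 * hm'
  have e2 : ∀ r s : ZMod p, (A : ZMod p) * r ^ 2 + 2 * B * (r * s) + C * s ^ 2 =
      C * ((s + i * r) * (s + j * r)) := by
    intro r s
    apply mul_left_cancel₀ hC0
    have f1 : (C : ZMod p) * (C * ((s + i * r) * (s + j * r))) =
        (C * s + (i * C) * r) * (C * s + (j * C) * r) := by ring
    rw [f1, hiC, hjC]
    linear_combination r ^ 2 * hdet' + r ^ 2 * hm'
  have hiff : ∀ y r : ZMod p,
      ((A : ZMod p) * x ^ 2 + 2 * B * (x * (-y)) + C * (-y) ^ 2) *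
        ((A : ZMod p) * (x * r) ^ 2 + 2 * B * ((x * r) * (1 - y * r)) + C * (1 - y * r) ^ 2) = 0 ↔
      ((y = i * x ∨ y = j * x) ∨ (r * (y - i * x) = 1 ∨ r * (y - j * x) = 1)) := by
    intro y r
    rw [e1, e2, mul_eq_zero, mul_eq_zero, mul_eq_zero, mul_eq_zero, mul_eq_zero, or_iff_right hC0,
      or_iff_right hC0, sub_eq_zero, sub_eq_zero]
    have e3 : ∀ e : ZMod p, 1 - y * r + e * (x * r) = 0 ↔ r * (y - e * x) = 1 := by
      intro e
      constructor
      · intro h
        linear_combination -h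
      · intro h
        linear_combination -h
    rw [e3, e3]
  obtain ⟨h1, h2⟩ := ldgen p i j hij (x : ZMod p) hx0 (fun t : ZMod p × ZMod p =>
      ((A : ZMod p) * x ^ 2 + 2 * B * (x * (-t.1)) + C * (-t.1) ^ 2) *
        ((A : ZMod p) * (x * t.2) ^ 2 + 2 * B * ((x * t.2) * (1 - t.1 * t.2)) +
          C * (1 - t.1 * t.2) ^ 2) = 0) (fun t => hiff t.1 t.2)
  have hp0 : (0 : ℝ) < p := by exact_mod_cast hp.pos
  have h4 := card_range_zmod p (fun t : ZMod p × ZMod p =>
      ((A : ZMod p) * x ^ 2 + 2 * B * (x * (-t.1)) + C * (-t.1) ^ 2) *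
        ((A : ZMod p) * (x * t.2) ^ 2 + 2 * B * ((x * t.2) * (1 - t.1 * t.2)) +
          C * (1 - t.1 * t.2) ^ 2) = 0)
        (hitQ A B C x p) (by
    intro y r
    unfold hitQ Q
    rw [← ZMod.intCast_zmod_eq_zero_iff_dvd]
    push_cast
    rfl)
  have h5 : gg (hitQ A B C x) p = ((univ.filter (fun t : ZMod p × ZMod p =>
      ((A : ZMod p) * x ^ 2 + 2 * B * (x * (-t.1)) + C * (-t.1) ^ 2) *
        ((A : ZMod p) * (x * t.2) ^ 2 + 2 * B * ((x * t.2) * (1 - t.1 * t.2)) +
          C * (1 - t.1 * t.2) ^ 2) = 0)).card : ℝ) /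
          (p : ℝ) ^ 2 := by
    unfold gg
    rw [h4]
    congr!
  set N : ℕ := (univ.filter (fun t : ZMod p × ZMod p =>
      ((A : ZMod p) * x ^ 2 + 2 * B * (x * (-t.1)) + C * (-t.1) ^ 2) *
        ((A : ZMod p) * (x * t.2) ^ 2 + 2 * B * ((x * t.2) * (1 - t.1 * t.2)) +
          C * (1 - t.1 * t.2) ^ 2) = 0)).card with hN
  have h1' : 4 * (p : ℝ) ≤ N + 16 := by
    have : 4 * p ≤ N + 16 := by convert h1
    exact_mod_cast this
  have h2' : (N : ℝ) ≤ 4 * p := by
    have : N ≤ 4 * p := by convert h2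
    exact_mod_cast this
  rw [h5]
  constructor
  · rw [le_div_iff₀ (by positivity)]
    have : (4 / (p : ℝ) - 16 / (p : ℝ) ^ 2) * (p : ℝ) ^ 2 = 4 * p - 16 := by
      field_simp
    linarith
  · rw [div_le_div_iff₀ (by positivity) hp0]
    have h6 := mul_le_mul_of_nonneg_right h2' hp0.le
    linarith

end Pool.Agent.H578.Gen
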