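import Pool.Agent.H578.Sec.KSY
import Pool.Agent.H578.Gen.LD
import Pool.Agent.Y346.PA.KL
import Pool.Agent.Y882.SI.Quad

/-!
# The sieve for the factorisations of `n ^ 2 + a`, for one first coefficient
(adapted from `Pool.Agent.H578.Sec.GY`)
-/

set_option autoImplicit false

namespace Pool.Agent.H578.Gen

open Finset
open Pool.Agent.Y346.PA
open Pool.Agent.H951R4.OD (PI)
open Pool.Agent.Y882.SI (QF QF_eval QF_irred ro_quad_le)
open Pool.Agent.Y882.PX (ro ro_eq)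
open Pool.Agent.H474R2.PG (PR Sg)
open scoped Classical

theorem rho_ro (a : ℤ) (p : ℕ) : Pool.Agent.H474R2.PG.rho (QF a) p = ro (QF a) 0 p := by
  rw [ro_eq]
  unfold Pool.Agent.H474R2.PG.rho
  simp

theorem rho_zero (a : ℤ) (p : ℕ) (h : ¬ SQ a p) : Pool.Agent.H474R2.PG.rho (QF a) p = 0 := by
  unfold Pool.Agent.H474R2.PG.rho
  rw [card_eq_zero, filter_eq_empty_iff]
  intro m _ hm
  rw [QF_eval] at hm
  exact h ⟨m, hm⟩

/-- Mertens' theorem for the primes for which `-a` is a square -/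
theorem mertQ (a : ℤ) (ha : ¬ IsSquare (-a)) : ∃ C : ℝ, ∀ y z : ℕ, 2 ≤ y → y ≤ z →
    2 * Real.log (Real.log z / Real.log y) - C ≤
      ∑ p ∈ (PI y z).filter (SQ a), 4 / (p : ℝ) := by
  obtain ⟨C, hC0, hC⟩ := Pool.Agent.H474R2.GE.mertens_rho (QF a) (QF_irred a ha) (by
    have hd : (QF a).natDegree = 2 := by
      unfold QF
      exact Polynomial.natDegree_X_pow_add_C
    omega)
  set ρ : ℕ → ℕ := Pool.Agent.H474R2.PG.rho (QF a) with hρ
  have hρ2 : ∀ p : ℕ, p.Prime → (ρ p : ℝ) ≤ 2 := by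
    intro p hp
    have h1 := ro_quad_le a p hp
    rw [← rho_ro] at h1
    exact_mod_cast h1
  have hC' : ∀ w : ℕ, 2 ≤ w → |Sg ρ w - Real.log (Real.log w)| ≤ C + 2 := by
    intro w hw
    rcases Nat.lt_or_ge w 3 with h3 | h3
    · have hw2 : w = 2 := by omega
      subst hw2
      have hPR : PR ((2 : ℕ) : ℝ) = {2} := by
        unfold PR
        rw [Nat.floor_natCast]
        decide
      have hS : Sg ρ ((2 : ℕ) : ℝ) = (ρ 2 : ℝ) / 2 := by
        unfold Sg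
        rw [hPR, sum_singleton]
        norm_num
      have h1 := hρ2 2 Nat.prime_two
      have h2 : (0 : ℝ) ≤ ρ 2 := Nat.cast_nonneg _
      have h4 : (1 / 2 : ℝ) < Real.log 2 := by linarith [Real.log_two_gt_d9]
      have h5 : Real.log 2 < 1 := by linarith [Real.log_two_lt_d9]
      have h6 : Real.log (Real.log 2) ≤ 0 := Real.log_nonpos (by linarith) h5.le
      have h7 : -1 ≤ Real.log (Real.log 2) := by
        have h8 := Real.one_sub_inv_le_log_of_pos (show (0 : ℝ) < Real.log 2 by linarith)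
        have h9 : (Real.log 2)⁻¹ ≤ 2 := by
          rw [inv_le_comm₀ (by linarith) (by norm_num)]
          linarith
        linarith
      rw [hS, abs_le]
      push_cast
      constructor
      · linarith
      · linarith
    · have h1 := hC w (by exact_mod_cast h3)
      exact h1.trans (by linarith)
  refine ⟨4 * (C + 2), fun y z hy hz => ?_⟩
  have hz2 : 2 ≤ z := hy.trans hz
  have h1 := (abs_le.1 (hC' z hz2)).1
  have h2 := (abs_le.1 (hC' y hy)).2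
  have hly : 0 < Real.log y := Real.log_pos (by exact_mod_cast (show 1 < y by omega))
  have hlz : 0 < Real.log z := Real.log_pos (by exact_mod_cast (show 1 < z by omega))
  have hPRn : ∀ w : ℕ, PR (w : ℝ) = (Icc 1 w).filter Nat.Prime := by
    intro w
    unfold PR
    rw [Nat.floor_natCast]
  have hunion : PR (z : ℝ) = PR (y : ℝ) ∪ PI y z := by
    rw [hPRn, hPRn]
    unfold PI
    ext p
    simp only [mem_union, mem_filter, mem_Icc, mem_Ioc]
    constructor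
    · rintro ⟨⟨h3, h4⟩, h5⟩
      by_cases h6 : p ≤ y
      · exact Or.inl ⟨⟨h3, h6⟩, h5⟩
      · exact Or.inr ⟨⟨by omega, h4⟩, h5⟩
    · rintro (⟨⟨h3, h4⟩, h5⟩ | ⟨⟨h3, h4⟩, h5⟩)
      · exact ⟨⟨h3, h4.trans hz⟩, h5⟩
      · exact ⟨⟨by omega, h4⟩, h5⟩
  have hdisj : Disjoint (PR (y : ℝ)) (PI y z) := by
    rw [hPRn, disjoint_left]
    intro p hp hp'
    unfold PI at hp'
    rw [mem_filter, mem_Icc] at hp
    rw [mem_filter, mem_Ioc] at hp'
    omega
  have hS : Sg ρ z = Sg ρ y + ∑ p ∈ PI y z, (ρ p : ℝ) / p := by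
    unfold Sg
    rw [hunion, sum_union hdisj]
  have h3 : ∑ p ∈ PI y z, 2 * ((ρ p : ℝ) / p) ≤ ∑ p ∈ (PI y z).filter (SQ a), 4 / (p : ℝ) := by
    rw [sum_filter]
    apply sum_le_sum
    intro p hp
    unfold PI at hp
    have hpp := (mem_filter.1 hp).2
    have hp0 : (0 : ℝ) < p := by exact_mod_cast hpp.pos
    split_ifs with h
    · have := hρ2 p hpp
      rw [← mul_div_assoc, div_le_div_iff_of_pos_right hp0]
      linarith
    · rw [hρ, rho_zero a p h]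
      simp
  rw [← mul_sum] at h3
  rw [Real.log_div hlz.ne' hly.ne']
  linarith

/-- the set of the admissible pairs `(y, r)` for one `x` -/
noncomputable def FxQ (a A B C : ℤ) (C0 x R : ℕ) : Finset (ℤ × ℤ) :=
  (Icc (-(x : ℤ)) x ×ˢ Icc (-(R : ℤ)) R).filter (fun u : ℤ × ℤ =>
    (x : ℤ) ∣ u.1 * u.2 - 1 ∧ ∀ p : ℕ, p.Prime → C0 < p → p ^ C0 ≤ x → ¬ p ∣ x →
      SQ a p → ¬ (p : ℤ) ∣ 2 * a * C → ¬ hitQ A B C x p u.1 u.2)

theorem lemGYQ (a A B C : ℤ) (ha : ¬ IsSquare (-a)) (hdet : A * C - B ^ 2 = a) (hC0 : C ≠ 0)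
    (c0 : ℕ) : ∃ (C0 : ℕ) (K : ℝ), 4 ≤ C0 ∧ c0 ≤ C0 ∧ 0 < K ∧ ∃ x0 : ℕ, ∀ (x R : ℕ),
    x0 ≤ x → x ≤ R →
    ((FxQ a A B C C0 x R).card : ℝ) ≤
      K * R * (Real.log x) ^ (-2 : ℝ) * ((x : ℝ) / x.totient) ^ 4 := by
  have ha0 : a ≠ 0 := by
    rintro rfl
    exact ha ⟨0, by simp⟩
  obtain ⟨C1, hC1, hks⟩ := Pool.Agent.H578.Sec.ksY kl 8
  set t : ℕ := (2 * a * C).natAbs with ht
  have ht1 : 1 ≤ t := by
    rw [ht]
    exact Int.natAbs_pos.2 (mul_ne_zero (mul_ne_zero (by norm_num) ha0) hC0)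
  set C' : ℕ := max C1 (max 4 c0) with hC
  have hC4 : 4 ≤ C' := le_trans (le_max_left _ _) (le_max_right _ _)
  have hCc : c0 ≤ C' := le_trans (le_max_right _ _) (le_max_right _ _)
  have hCC : C1 ≤ C' := le_max_left _ _
  obtain ⟨K, hK0, hK⟩ := pc_prod 2 (by norm_num) (SQ a) (mertQ a ha) t ht1 C' hC4
  have hC1' : (0 : ℝ) < C1 := by exact_mod_cast hC1
  refine ⟨C', 2 * C1 * K, hC4, hCc, by positivity, C' ^ (2 * C'), ?_⟩
  intro x R hx1 hxR
  have hCx : C' ≤ x := le_trans (Nat.le_self_pow (by omega) C') hx1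
  have hx1' : 1 ≤ x := by omega
  have hx0 : (0 : ℝ) < x := by exact_mod_cast hx1'
  have hx1r : (1 : ℝ) ≤ x := by exact_mod_cast hx1'
  set P : Finset ℕ := PC C' t (SQ a) x with hP
  have hmem : ∀ p ∈ P, p.Prime ∧ C' < p ∧ p ^ C' ≤ x ∧ ¬ p ∣ x ∧ SQ a p ∧
      ¬ (p : ℤ) ∣ 2 * a * C := by
    intro p hp
    rw [hP, PC, mem_filter] at hp
    obtain ⟨-, h1, h2, h3, h4, h5⟩ := hp
    refine ⟨h1, h2, h3, fun h => h5 (h.mul_right _), h4, fun h => h5 (Dvd.dvd.mul_left ?_ _)⟩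
    exact Int.natCast_dvd.1 h
  have hgPC : ∀ p ∈ P, 4 / (p : ℝ) - 16 / (p : ℝ) ^ 2 ≤ gg (hitQ A B C x) p ∧
      gg (hitQ A B C x) p ≤ 4 / p := by
    intro p hp
    obtain ⟨h1, h2, h3, h4, h5, h6⟩ := hmem p hp
    exact ggQ a A B C hdet x p h1 h5 h4 (fun h => h6 (h.mul_right _)) (fun h => h6 (h.mul_left _))
  have hYr : (((x : ℤ) : ℝ) - ((-(x : ℤ) : ℤ) : ℝ)) = 2 * x := by
    push_cast
    ring
  have hk := hks x R (-(x : ℤ)) x (le_trans hCC hCx) hxR (by rw [hYr]; linarith) (by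
    rw [hYr]
    calc (x : ℝ) ^ (15 / 16 : ℝ) ≤ (x : ℝ) ^ (1 : ℝ) :=
          Real.rpow_le_rpow_of_exponent_le hx1r (by norm_num)
      _ = x := Real.rpow_one _
      _ ≤ 2 * x := by linarith) P (hitQ A B C x) ?_ ?_ ?_
  · have h3 := hK x (gg (hitQ A B C x)) hx1 hgPC
    have h8 : ((FxQ a A B C C' x R).card : ℝ) ≤
        ((Icc (-(x : ℤ)) x ×ˢ Icc (-(R : ℤ)) R).filter (fun t : ℤ × ℤ =>
        (x : ℤ) ∣ t.1 * t.2 - 1 ∧ ∀ p ∈ P, ¬ hitQ A B C x p t.1 t.2)).card := by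
      have : (FxQ a A B C C' x R).card ≤
        ((Icc (-(x : ℤ)) x ×ˢ Icc (-(R : ℤ)) R).filter (fun t : ℤ × ℤ =>
        (x : ℤ) ∣ t.1 * t.2 - 1 ∧ ∀ p ∈ P, ¬ hitQ A B C x p t.1 t.2)).card := by
        apply card_le_card
        apply monotone_filter_right
        intro u _ hu
        refine ⟨hu.1, fun p hp => ?_⟩
        obtain ⟨h1, h2, h3, h4, h5, h6⟩ := hmem p hp
        exact hu.2 p h1 h2 h3 h4 h5 h6
      exact_mod_cast this
    refine le_trans h8 (le_trans hk ?_)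
    rw [hYr, mul_div_assoc, div_self hx0.ne', mul_one]
    calc (C1 : ℝ) * 2 * R * ∏ p ∈ P, (1 - gg (hitQ A B C x) p)
        ≤ (C1 : ℝ) * 2 * R *
            (K * (Real.log x) ^ (-2 : ℝ) * ((x : ℝ) / x.totient) ^ 4) := by gcongr
      _ = _ := by ring
  · intro p hp
    obtain ⟨h1, h2, h3, h4, h5, h6⟩ := hmem p hp
    refine ⟨h1, by omega, ?_, h4⟩
    exact le_trans (Nat.pow_le_pow_right h1.pos hCC) h3
  · intro p hp y r k l
    exact hitQ_per A B C x p y r k l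
  · intro p hp
    have h6 : (0 : ℝ) < p := by exact_mod_cast (hmem p hp).1.pos
    refine le_trans (hgPC p hp).2 ?_
    push_cast
    gcongr
    norm_num

end Pool.Agent.H578.Gen
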