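import Pool.Agent.H578.Gen.Alg

/-!
# Factorisations of `n ^ 2 + a` and binary quadratic forms, for every `a` such that `-a` is no square
-/

set_option autoImplicit false

namespace Pool.Agent.H578.Gen

/-- a short primitive vector -/
theorem short_vec (a : ℤ) (ha : ¬ IsSquare (-a)) (d e n : ℤ) (hd : 1 ≤ d)
    (hde : d * e = n ^ 2 + a) :
    ∃ w x : ℤ, IsCoprime w x ∧ x ^ 2 ≤ d ∧ (n * x + w * d) ^ 2 ≤ d ∧
      Q d n e w x ≠ 0 ∧ |Q d n e w x| ≤ 1 + |a| := by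
  have hd0 : 0 < d := by linarith
  obtain ⟨D, hD⟩ : ∃ D : ℕ, (D : ℤ) = d := ⟨d.toNat, Int.toNat_of_nonneg (by linarith)⟩
  have hD1 : 1 ≤ D := by omega
  have hs1 : 0 < Nat.sqrt D := Nat.sqrt_pos.2 hD1
  obtain ⟨j, k, hk0, hk1, hk2⟩ := Real.exists_int_int_abs_mul_sub_le ((n : ℝ) / d) hs1
  have hdr : (0 : ℝ) < d := by exact_mod_cast hd0
  have hDr : (D : ℝ) = d := by exact_mod_cast hD
  have hkd : k ^ 2 ≤ d := by
    have h1 : k ^ 2 ≤ ((Nat.sqrt D : ℕ) : ℤ) ^ 2 := pow_le_pow_left₀ hk0.le hk1 2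
    have h2 : ((Nat.sqrt D : ℕ) : ℤ) ^ 2 ≤ (D : ℤ) := by exact_mod_cast Nat.sqrt_le' D
    rw [hD] at h2
    exact h1.trans h2
  have hyd : (n * k + (-j) * d) ^ 2 ≤ d := by
    have h1 : (D : ℝ) < ((Nat.sqrt D : ℕ) + 1 : ℝ) ^ 2 := by exact_mod_cast Nat.lt_succ_sqrt' D
    have hS : (0 : ℝ) < (Nat.sqrt D : ℕ) + 1 := by positivity
    have h2 : |((n * k + (-j) * d : ℤ) : ℝ)| ≤ d / ((Nat.sqrt D : ℕ) + 1) := by
      have h3 : ((n * k + (-j) * d : ℤ) : ℝ) = (k * ((n : ℝ) / d) - j) * d := by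
        push_cast
        field_simp
        ring
      rw [h3, abs_mul, abs_of_pos hdr]
      calc |(k : ℝ) * ((n : ℝ) / d) - j| * d ≤ 1 / ((Nat.sqrt D : ℕ) + 1) * d := by gcongr
        _ = _ := by ring
    have h4 : (((n * k + (-j) * d : ℤ) : ℝ)) ^ 2 ≤ d := by
      rw [← sq_abs]
      calc |((n * k + (-j) * d : ℤ) : ℝ)| ^ 2 ≤ (d / ((Nat.sqrt D : ℕ) + 1)) ^ 2 := by gcongr
        _ = d ^ 2 / ((Nat.sqrt D : ℕ) + 1 : ℝ) ^ 2 := by rw [div_pow]
        _ ≤ d ^ 2 / D := by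
            apply div_le_div_of_nonneg_left (by positivity) (by rw [hDr]; exact hdr) h1.le
        _ = d := by
            rw [hDr]
            field_simp
    exact_mod_cast h4
  -- primitive
  obtain ⟨g, hg⟩ : ∃ g : ℤ, g = Int.gcd j k := ⟨_, rfl⟩
  have hgpos : 0 < g := by
    rw [hg]
    exact_mod_cast Int.gcd_pos_of_ne_zero_right j hk0.ne'
  obtain ⟨j₁, hj₁⟩ : g ∣ j := by rw [hg]; exact Int.gcd_dvd_left ..
  obtain ⟨k₁, hk₁⟩ : g ∣ k := by rw [hg]; exact Int.gcd_dvd_right ..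
  have hcop : IsCoprime j₁ k₁ := by
    rw [Int.isCoprime_iff_gcd_eq_one]
    have h1 : Int.gcd j k = g.natAbs * Int.gcd j₁ k₁ := by
      rw [hj₁, hk₁, Int.gcd_mul_left]
    have h2 : g.natAbs = Int.gcd j k := by rw [hg]; simp
    rw [h2] at h1
    have h3 : 0 < Int.gcd j k := Int.gcd_pos_of_ne_zero_right j hk0.ne'
    exact Nat.eq_of_mul_eq_mul_left h3 (by omega)
  have hk₁0 : k₁ ≠ 0 := by
    rintro rfl
    rw [mul_zero] at hk₁
    omega
  have hsq : ∀ z z₁ : ℤ, z = g * z₁ → z ^ 2 ≤ d → z₁ ^ 2 ≤ d := by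
    intro z z₁ h1 h2
    have h3 : z₁ ^ 2 ≤ z ^ 2 := by
      rw [h1, mul_pow]
      have h4 : 1 ≤ g ^ 2 := one_le_pow₀ (by omega)
      nlinarith [sq_nonneg z₁]
    exact h3.trans h2
  have hx : k₁ ^ 2 ≤ d := hsq k k₁ hk₁ hkd
  have hy : (n * k₁ + (-j₁) * d) ^ 2 ≤ d :=
    hsq (n * k + (-j) * d) (n * k₁ + (-j₁) * d) (by rw [hj₁, hk₁]; ring) hyd
  have hdq : d * Q d n e (-j₁) k₁ = (n * k₁ + (-j₁) * d) ^ 2 + a * k₁ ^ 2 := by
    unfold Q
    linear_combination k₁ ^ 2 * hde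
  have hq0 : Q d n e (-j₁) k₁ ≠ 0 := by
    intro h
    rw [h, mul_zero] at hdq
    have h1 : (n * k₁ + (-j₁) * d) ^ 2 = -a * k₁ ^ 2 := by linarith
    have h2 : k₁ ∣ n * k₁ + (-j₁) * d := by
      rw [← Int.pow_dvd_pow_iff (n := 2) (by norm_num), h1]
      exact Dvd.intro_left _ rfl
    obtain ⟨z, hz⟩ := h2
    apply ha
    refine ⟨z, ?_⟩
    rw [hz] at h1
    have h3 : k₁ ^ 2 * (z * z) = k₁ ^ 2 * (-a) := by linear_combination h1
    exact (mul_left_cancel₀ (pow_ne_zero 2 hk₁0) h3).symm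
  refine ⟨-j₁, k₁, hcop.neg_left, hx, hy, hq0, ?_⟩
  have h1 : d * |Q d n e (-j₁) k₁| ≤ d * (1 + |a|) := by
    have h2 : d * |Q d n e (-j₁) k₁| = |d * Q d n e (-j₁) k₁| := by
      rw [abs_mul, abs_of_pos hd0]
    rw [h2, hdq]
    calc |(n * k₁ + (-j₁) * d) ^ 2 + a * k₁ ^ 2| ≤
        |(n * k₁ + (-j₁) * d) ^ 2| + |a * k₁ ^ 2| := abs_add_le _ _
      _ = (n * k₁ + (-j₁) * d) ^ 2 + |a| * k₁ ^ 2 := by
          rw [abs_of_nonneg (sq_nonneg _), abs_mul, abs_of_nonneg (sq_nonneg k₁)]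
      _ ≤ d + |a| * d := by
          have := mul_le_mul_of_nonneg_left hx (abs_nonneg a)
          linarith
      _ = d * (1 + |a|) := by ring
  exact le_of_mul_le_mul_left h1 hd0

/-- the constant -/
def KK (a : ℤ) : ℤ := 30 * (1 + |a|) ^ 3

/-- the forms which occur -/
def IsFormG (a A B C : ℤ) : Prop :=
  A ≠ 0 ∧ C ≠ 0 ∧ |A| + 2 * |B| + |C| ≤ KK a ∧ A * C - B ^ 2 = a

theorem sq_bound {q B u v α E N : ℤ} (hq : q ≠ 0) (hα : 0 ≤ α) (hB : |B| ≤ 1 + α) (hqα : |q| ≤ 1 + α)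
    (hE : 0 ≤ E) (h : |(q * u + B * v) ^ 2 - q * E| ≤ α * v ^ 2) (hv : v ^ 2 ≤ N * E) :
    u ^ 2 ≤ (2 * (1 + α) + (2 * α + 2 * (1 + α) ^ 2) * N) * E := by
  have h1 : (q * u + B * v) ^ 2 ≤ (1 + α) * E + α * (N * E) := by
    have h2 := (abs_le.1 h).2
    have h3 : q * E ≤ (1 + α) * E := mul_le_mul_of_nonneg_right ((le_abs_self q).trans hqα) hE
    have h4 : α * v ^ 2 ≤ α * (N * E) := mul_le_mul_of_nonneg_left hv hα
    linarith
  have h5 : u ^ 2 ≤ (q * u) ^ 2 := by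
    rw [mul_pow]
    have h6 : 1 ≤ q ^ 2 := by
      have h8 : 0 < q ^ 2 := by positivity
      omega
    nlinarith [sq_nonneg u]
  have h7 : (q * u) ^ 2 ≤ 2 * (q * u + B * v) ^ 2 + 2 * (B * v) ^ 2 := by
    nlinarith [sq_nonneg (q * u + 2 * (B * v))]
  have h8 : (B * v) ^ 2 ≤ (1 + α) ^ 2 * (N * E) := by
    rw [mul_pow]
    have h9 : B ^ 2 ≤ (1 + α) ^ 2 := by
      rw [← sq_abs B]
      exact pow_le_pow_left₀ (abs_nonneg B) hB 2
    exact mul_le_mul h9 hv (sq_nonneg _) (sq_nonneg _)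
  calc u ^ 2 ≤ 2 * ((1 + α) * E + α * (N * E)) + 2 * ((1 + α) ^ 2 * (N * E)) := by linarith
    _ = _ := by ring

/-- the representation, with bounds -/
theorem rep_gen (a : ℤ) (ha : ¬ IsSquare (-a)) (d e n : ℤ) (hd : 1 ≤ d) (he : 1 ≤ e) (hn : 1 ≤ n)
    (hde : d * e = n ^ 2 + a) : ∃ A B C u v r s : ℤ, IsFormG a A B C ∧ u * s - v * r = 1 ∧
      d = Q A B C u v ∧ e = Q A B C r s ∧ n = L A B C u v r s ∧
      u ^ 2 ≤ KK a * d ∧ v ^ 2 ≤ KK a * d ∧ r ^ 2 ≤ KK a * e ∧ s ^ 2 ≤ KK a * e := by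
  obtain ⟨w, x, hcop, hx, hy, hq0, hqa⟩ := short_vec a ha d e n hd hde
  set q : ℤ := Q d n e w x with hq
  set α : ℤ := |a| with hα
  have hα0 : 0 ≤ α := abs_nonneg a
  obtain ⟨w', x', hdet⟩ : ∃ w' x' : ℤ, w * x' - x * w' = 1 := by
    obtain ⟨p1, p2, hp⟩ := hcop
    exact ⟨-p2, p1, by linear_combination hp⟩
  -- translate
  set lam : ℤ := -(L d n e w x w' x' / q) with hlam
  set w₂ : ℤ := w' + lam * w with hw₂
  set x₂ : ℤ := x' + lam * x with hx₂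
  have hdet₂ : w * x₂ - x * w₂ = 1 := by
    rw [hw₂, hx₂]
    linear_combination hdet
  set B : ℤ := L d n e w x w₂ x₂ with hB
  have hBmod : B = L d n e w x w' x' % q := by
    have h1 : B = L d n e w x w' x' + lam * q := by
      rw [hB, hw₂, hx₂, hq]
      unfold L Q
      ring
    rw [h1, hlam, Int.emod_def]
    ring
  have hB0 : 0 ≤ B := by
    rw [hBmod]
    exact Int.emod_nonneg _ hq0
  have hB1 : B < |q| := by
    rw [hBmod]
    exact Int.emod_lt_abs _ hq0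
  have hBa : |B| ≤ 1 + α := by
    rw [abs_of_nonneg hB0]
    linarith
  set C : ℤ := Q d n e w₂ x₂ with hC
  have hqC : q * C - B ^ 2 = a := by
    have h1 := QQ d n e w x w₂ x₂
    rw [← hq, ← hC, ← hB, hdet₂] at h1
    rw [h1]
    linear_combination hde
  have hC0 : C ≠ 0 := by
    intro h
    rw [h, mul_zero, zero_sub] at hqC
    exact ha ⟨B, by linarith [hqC]⟩
  have hCa : |C| ≤ α + (1 + α) ^ 2 := by
    have h1 : |C| ≤ |q * C| := by
      rw [abs_mul]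
      have : 1 ≤ |q| := Int.one_le_abs hq0
      nlinarith [abs_nonneg C]
    have h2 : q * C = a + B ^ 2 := by linarith
    have h3 : |a + B ^ 2| ≤ |a| + |B ^ 2| := abs_add_le _ _
    have h4 : |B ^ 2| ≤ (1 + α) ^ 2 := by
      rw [abs_pow]
      exact pow_le_pow_left₀ (abs_nonneg B) hBa 2
    rw [h2] at h1
    linarith
  have e1 : Q q B C x₂ (-x) = d := by
    have : Q q B C x₂ (-x) = d * (w * x₂ - x * w₂) ^ 2 := by
      rw [hB, hC, hq]
      unfold Q L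
      ring
    rw [this, hdet₂]
    ring
  have e2 : Q q B C (-w₂) w = e := by
    have : Q q B C (-w₂) w = e * (w * x₂ - x * w₂) ^ 2 := by
      rw [hB, hC, hq]
      unfold Q L
      ring
    rw [this, hdet₂]
    ring
  have e3 : L q B C x₂ (-x) (-w₂) w = n := by
    have : L q B C x₂ (-x) (-w₂) w = n * (w * x₂ - x * w₂) ^ 2 := by
      rw [hB, hC, hq]
      unfold Q L
      ring
    rw [this, hdet₂]
    ring
  have hid : ∀ u v : ℤ, q * Q q B C u v = (q * u + B * v) ^ 2 + a * v ^ 2 := by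
    intro u v
    unfold Q
    linear_combination v ^ 2 * hqC
  have habs : ∀ u v E : ℤ, Q q B C u v = E → |(q * u + B * v) ^ 2 - q * E| ≤ α * v ^ 2 := by
    intro u v E h
    have h1 := hid u v
    rw [h] at h1
    have h2 : (q * u + B * v) ^ 2 - q * E = -(a * v ^ 2) := by linarith
    rw [h2, abs_neg, abs_mul, abs_of_nonneg (sq_nonneg v)]
  -- the bounds
  have hv2 : (-x) ^ 2 ≤ 1 * d := by
    rw [neg_sq, one_mul]
    exact hx
  have hw2 : w ^ 2 ≤ (2 * (2 + α)) * e := by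
    have h1 : d * (w ^ 2 * d) ≤ d * (2 * n ^ 2 + 2) := by
      have h2 : (w * d) ^ 2 ≤ 2 * (n * x) ^ 2 + 2 * (n * x + w * d) ^ 2 := by
        nlinarith [sq_nonneg (2 * (n * x) + w * d)]
      have h3 : (n * x) ^ 2 ≤ n ^ 2 * d := by
        rw [mul_pow]
        exact mul_le_mul_of_nonneg_left hx (sq_nonneg n)
      calc d * (w ^ 2 * d) = (w * d) ^ 2 := by ring
        _ ≤ 2 * (n ^ 2 * d) + 2 * d := by linarith
        _ = _ := by ring
    have h4 : w ^ 2 * d ≤ 2 * n ^ 2 + 2 := le_of_mul_le_mul_left h1 (by linarith)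
    have h5 : 2 * n ^ 2 + 2 ≤ (2 * (2 + α)) * (n ^ 2 + a) := by
      have h6 : 1 ≤ n ^ 2 + a := by
        rw [← hde]
        nlinarith
      have h7 : 1 ≤ n ^ 2 := one_le_pow₀ hn
      rcases le_total 0 a with h8 | h8
      · have : 0 ≤ α * (n ^ 2 + a) := by positivity
        nlinarith
      · have h9 : α = -a := by rw [hα, abs_of_nonpos h8]
        have h10 : α * 1 ≤ α * (n ^ 2 + a) := mul_le_mul_of_nonneg_left h6 hα0
        nlinarith
    have h6 : d * w ^ 2 ≤ d * ((2 * (2 + α)) * e) := by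
      calc d * w ^ 2 = w ^ 2 * d := by ring
        _ ≤ (2 * (2 + α)) * (n ^ 2 + a) := h4.trans h5
        _ = d * ((2 * (2 + α)) * e) := by rw [← hde]; ring
    exact le_of_mul_le_mul_left h6 (by linarith)
  have hu := sq_bound (u := x₂) (v := -x) hq0 hα0 hBa hqa (by linarith : (0 : ℤ) ≤ d)
    (habs _ _ _ e1) hv2
  have hr := sq_bound (u := -w₂) (v := w) hq0 hα0 hBa hqa (by linarith : (0 : ℤ) ≤ e)
    (habs _ _ _ e2) hw2
  have hα2 : 0 ≤ α ^ 2 := sq_nonneg _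
  have hα3 : 0 ≤ α ^ 3 := by positivity
  have hKK : KK a = 30 + 90 * α + 90 * α ^ 2 + 30 * α ^ 3 := by
    unfold KK
    rw [← hα]
    ring
  have hk1 : (2 * (1 + α) + (2 * α + 2 * (1 + α) ^ 2) * 1) ≤ KK a := by
    rw [hKK]
    nlinarith
  have hk2 : (2 * (1 + α) + (2 * α + 2 * (1 + α) ^ 2) * (2 * (2 + α))) ≤ KK a := by
    rw [hKK]
    nlinarith
  have hk3 : (1 : ℤ) ≤ KK a := by
    rw [hKK]
    linarith
  have hk4 : 2 * (2 + α) ≤ KK a := by
    rw [hKK]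
    linarith
  refine ⟨q, B, C, x₂, -x, -w₂, w, ⟨hq0, hC0, ?_, hqC⟩, ?_, e1.symm, e2.symm, e3.symm, ?_, ?_, ?_, ?_⟩
  · rw [hKK]
    nlinarith
  · linear_combination hdet₂
  · exact hu.trans (mul_le_mul_of_nonneg_right hk1 (by linarith))
  · exact hv2.trans (mul_le_mul_of_nonneg_right hk3 (by linarith))
  · exact hr.trans (mul_le_mul_of_nonneg_right hk2 (by linarith))
  · exact hw2.trans (mul_le_mul_of_nonneg_right hk4 (by linarith))

end Pool.Agent.H578.Gen
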