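import Pool.Agent.H578.Gen.ShortG

/-!
# Uniform version: windows `[y, z]` which may depend on `X`

Here `a` is any integer such that `-a` is not a square.
-/

set_option autoImplicit false

namespace Pool.Agent.H578.Gen

open Finset Filter Topology
open Pool.Agent.Results.MP_7169d5_nt.ShortIntervalsFewExceptions (almostPrimes)
open scoped Classical

/-- the `n` in `(N / 2, N]` with `n ^ 2 + a` free of prime factors below `ρ` and with a proper divisor in
`[y, z]` -/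
noncomputable def DB (a : ℤ) (ρ y z : ℝ) (N : ℕ) : Finset ℕ :=
  (Ioc (N / 2) N).filter (fun n : ℕ => RoughG a ρ n ∧ HasDivG a n y z)

theorem db_le (a : ℤ) (ha : ¬ IsSquare (-a)) (w : ℝ) (hw : 0 < w) : ∃ C : ℝ, 0 < C ∧
    ∀ᶠ N : ℕ in atTop, ∀ ρ y z : ℝ, (N : ℝ) ^ w ≤ ρ → 0 < y → y ≤ z →
      ((DB a ρ y z N).card : ℝ) ≤ C * (1 + Real.log (z / y)) * N / (Real.log N) ^ 2 := by
  have hex : ∀ f : ℤ × ℤ × ℤ, ∃ K : ℝ, 0 < K ∧ (f ∈ FFG a →
      ∀ᶠ X : ℕ in atTop, ∀ A1 B1 : ℝ, 0 < A1 → A1 ≤ 5 * B1 →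
      ((SSG a f.1 f.2.1 f.2.2 w X A1 B1).card : ℝ) ≤
        K * X / (Real.log X) ^ 2 * (1 + Real.log (5 * B1 / A1))) := by
    intro f
    by_cases hf : f ∈ FFG a
    · have hf' := hf
      unfold FFG at hf'
      rw [mem_filter] at hf'
      obtain ⟨K, hK, h⟩ := coreG a ha f.1 f.2.1 f.2.2 hf'.2.1 hf'.2.2 w hw
      exact ⟨K, hK, fun _ => h⟩
    · exact ⟨1, one_pos, fun h => absurd h hf⟩
  choose K hK0 hK using hex
  set S : ℝ := ∑ f ∈ FFG a, K f with hS
  have hS0 : 0 ≤ S := sum_nonneg fun f _ => (hK0 f).le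
  set κ : ℝ := (KN a : ℝ) with hκ
  have hκ1 : (1 : ℝ) ≤ κ := by rw [hκ]; exact_mod_cast KN_one a
  have hκ0 : (0 : ℝ) < κ := by linarith
  have hκ2 : (1 : ℝ) ≤ κ ^ 2 := one_le_pow₀ hκ1
  set M : ℝ := 1 + Real.log (16 * κ ^ 2) with hM
  have hM1 : 1 ≤ M := by
    have : 0 ≤ Real.log (16 * κ ^ 2) := Real.log_nonneg (by linarith)
    linarith
  refine ⟨2 * M * S + 1, by positivity, ?_⟩
  have hall : ∀ᶠ X : ℕ in atTop, ∀ f ∈ FFG a, ∀ A1 B1 : ℝ, 0 < A1 → A1 ≤ 5 * B1 →
      ((SSG a f.1 f.2.1 f.2.2 w X A1 B1).card : ℝ) ≤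
        K f * X / (Real.log X) ^ 2 * (1 + Real.log (5 * B1 / A1)) :=
    (Finset.eventually_all (FFG a)).2 fun f hf => hK f hf
  filter_upwards [hall, eventually_ge_atTop (8 * a.natAbs + 8)] with X h1 h6
  intro ρ y z hρ hy hyz
  have hX3 : 8 ≤ X := by omega
  have hXr : (8 : ℝ) ≤ X := by exact_mod_cast hX3
  have hX0 : (0 : ℝ) < X := by linarith
  have hz : 0 < z := by linarith
  have haX : 8 * |(a : ℝ)| + 8 ≤ X := by
    have h7 : ((8 * a.natAbs + 8 : ℕ) : ℝ) ≤ X := by exact_mod_cast h6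
    push_cast at h7
    rw [Nat.cast_natAbs] at h7
    push_cast at h7
    exact h7
  have hzy : 1 ≤ z / y := by rwa [one_le_div hy]
  have hlzy : 0 ≤ Real.log (z / y) := Real.log_nonneg hzy
  set A1 : ℝ := 5 * y / κ with hA1
  set B1 : ℝ := κ * z with hB1
  set A2 : ℝ := 5 * ((X : ℝ) ^ 2 / (8 * z)) / κ with hA2
  set B2 : ℝ := 2 * κ * ((X : ℝ) ^ 2 / y) with hB2
  have hA1' : 0 < A1 := by positivity
  have hA2' : 0 < A2 := by positivity
  have hr1 : 5 * B1 / A1 = κ ^ 2 * (z / y) := by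
    rw [hA1, hB1]
    field_simp
  have hr2 : 5 * B2 / A2 = 16 * κ ^ 2 * (z / y) := by
    rw [hA2, hB2]
    field_simp
    norm_num
  have hAB1 : A1 ≤ 5 * B1 := by
    rw [← one_le_div hA1', hr1]
    nlinarith
  have hAB2 : A2 ≤ 5 * B2 := by
    rw [← one_le_div hA2', hr2]
    nlinarith
  have hsub : DB a ρ y z X ⊆
      (FFG a).biUnion (fun f => SSG a f.1 f.2.1 f.2.2 w X A1 B1 ∪
        SSG a f.1 f.2.1 f.2.2 w X A2 B2) := by
    intro n hn
    rw [DB, mem_filter, mem_Ioc] at hn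
    obtain ⟨⟨hn1, hnX⟩, hrough0, d, hd, hd1, hdn, hdD, hdE⟩ := hn
    have hrough : RoughG a ((X : ℝ) ^ w) n := fun p hp hpa => hρ.trans (hrough0 p hp hpa)
    rw [mem_biUnion]
    have hn1' : 1 ≤ n := by omega
    have hnXr : (n : ℝ) ≤ X := by exact_mod_cast hnX
    have hn2n : X ≤ 2 * n := by omega
    have hn2r : (X : ℝ) ≤ 2 * n := by exact_mod_cast hn2n
    have hn2 : (X : ℝ) ^ 2 ≤ 4 * (n : ℝ) ^ 2 := by nlinarith
    have hXX : 8 * (X : ℝ) ≤ (X : ℝ) ^ 2 := by nlinarith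
    have haabs := abs_le.1 (le_refl |(a : ℝ)|)
    have hlow0 : (X : ℝ) ^ 2 ≤ 8 * ((n : ℝ) ^ 2 + a) := by
      linarith [haabs.1, abs_nonneg (a : ℝ)]
    have hup0 : (n : ℝ) ^ 2 + a ≤ 2 * (X : ℝ) ^ 2 := by
      have h7 : (n : ℝ) ^ 2 ≤ (X : ℝ) ^ 2 := pow_le_pow_left₀ (Nat.cast_nonneg _) hnXr 2
      linarith [haabs.2, abs_nonneg (a : ℝ)]
    have hpos : (0 : ℤ) < (n : ℤ) ^ 2 + a := by
      have h7 : (0 : ℝ) < (n : ℝ) ^ 2 + a := by nlinarith
      exact_mod_cast h7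
    obtain ⟨M', hM'⟩ : ∃ M' : ℕ, (M' : ℤ) = (n : ℤ) ^ 2 + a :=
      ⟨((n : ℤ) ^ 2 + a).toNat, Int.toNat_of_nonneg hpos.le⟩
    rw [← hM', Int.natCast_dvd_natCast] at hd
    rw [← hM', Int.natAbs_natCast] at hdn
    have hMr : (M' : ℝ) = (n : ℝ) ^ 2 + a := by exact_mod_cast hM'
    obtain ⟨e, he⟩ := hd
    have he1 : 1 < e := by
      by_contra hc
      have : e = 0 ∨ e = 1 := by omega
      rcases this with rfl | rfl
      · omega
      · omega
    have her : ((n : ℝ) ^ 2 + a) = d * e := by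
      rw [← hMr, he]
      push_cast
      ring
    have hez : (d : ℤ) * e = (n : ℤ) ^ 2 + a := by
      rw [← hM', he]
      push_cast
      ring
    have hd0 : (0 : ℝ) < d := by exact_mod_cast (show 0 < d by omega)
    have he0 : (0 : ℝ) < e := by exact_mod_cast (show 0 < e by omega)
    rcases le_total d e with hle | hle
    · obtain ⟨A, B, C, hF, x, y', r, s', g1, g2, g3, g4, g5, g6, g7, g8, g9, g10⟩ :=
        reduceG a ha n hn1' d e hd1 hle hez
      refine ⟨(A, B, C), mem_FFG a A B C hF, ?_⟩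
      rw [mem_union]
      left
      have g9r : (x : ℝ) ^ 2 ≤ κ * d := by rw [hκ]; exact_mod_cast g9
      have g10r : (d : ℝ) ≤ κ * (x : ℝ) ^ 2 := by rw [hκ]; exact_mod_cast g10
      rw [SSG, mem_filter, mem_Icc]
      refine ⟨⟨hn1', hnX⟩, hrough, x, y', r, s', g1, g2, g3, ?_, g6, g7, g8, ?_, ?_, ?_⟩
      · rw [← g4, ← g5, hez]
      · exact (rough_divG hrough ⟨e, hez.symm⟩ hd1).trans g10r
      · rw [hA1, div_le_iff₀ hκ0]
        linarith
      · rw [hB1]
        refine g9r.trans ?_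
        gcongr
    · obtain ⟨A, B, C, hF, x, y', r, s', g1, g2, g3, g4, g5, g6, g7, g8, g9, g10⟩ :=
        reduceG a ha n hn1' e d he1 hle (by rw [← hez]; ring)
      refine ⟨(A, B, C), mem_FFG a A B C hF, ?_⟩
      rw [mem_union]
      right
      have g9r : (x : ℝ) ^ 2 ≤ κ * e := by rw [hκ]; exact_mod_cast g9
      have g10r : (e : ℝ) ≤ κ * (x : ℝ) ^ 2 := by rw [hκ]; exact_mod_cast g10
      have hlow : (X : ℝ) ^ 2 / (8 * z) ≤ e := by
        rw [div_le_iff₀ (by positivity)]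
        have h9 : (d : ℝ) * e ≤ z * e := by gcongr
        rw [her] at hlow0
        linarith
      have hup : (e : ℝ) ≤ 2 * ((X : ℝ) ^ 2 / y) := by
        rw [mul_div_assoc', le_div_iff₀ hy]
        have h10 : y * e ≤ d * e := by gcongr
        rw [her] at hup0
        linarith
      rw [SSG, mem_filter, mem_Icc]
      refine ⟨⟨hn1', hnX⟩, hrough, x, y', r, s', g1, g2, g3, ?_, g6, g7, g8, ?_, ?_, ?_⟩
      · rw [← g4, ← g5, ← hez]
        ring
      · exact (rough_divG hrough ⟨d, by rw [← hez]; ring⟩ he1).trans g10r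
      · rw [hA2, div_le_iff₀ (by positivity)]
        linarith
      · rw [hB2]
        calc (x : ℝ) ^ 2 ≤ κ * e := g9r
          _ ≤ κ * (2 * ((X : ℝ) ^ 2 / y)) := by gcongr
          _ = _ := by ring
  have hl1 : 1 + Real.log (5 * B1 / A1) ≤ M * (1 + Real.log (z / y)) := by
    rw [hr1, Real.log_mul (by positivity) (by positivity), hM]
    have h8 : Real.log (κ ^ 2) ≤ Real.log (16 * κ ^ 2) :=
      Real.log_le_log (by positivity) (by linarith)
    have h9 : 0 ≤ Real.log (16 * κ ^ 2) := Real.log_nonneg (by linarith)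
    nlinarith
  have hl2 : 1 + Real.log (5 * B2 / A2) ≤ M * (1 + Real.log (z / y)) := by
    rw [hr2, Real.log_mul (by positivity) (by positivity), hM]
    have h9 : 0 ≤ Real.log (16 * κ ^ 2) := Real.log_nonneg (by linarith)
    nlinarith
  have hcard : ((DB a ρ y z X).card : ℝ) ≤
        ∑ f ∈ FFG a, (((SSG a f.1 f.2.1 f.2.2 w X A1 B1).card : ℝ) +
          ((SSG a f.1 f.2.1 f.2.2 w X A2 B2).card : ℝ)) := by
    have h7 := card_le_card hsub
    have h8 := card_biUnion_le (s := FFG a) (t := fun f => SSG a f.1 f.2.1 f.2.2 w X A1 B1 ∪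
      SSG a f.1 f.2.1 f.2.2 w X A2 B2)
    have h9 : ∑ f ∈ FFG a, (SSG a f.1 f.2.1 f.2.2 w X A1 B1 ∪ SSG a f.1 f.2.1 f.2.2 w X A2 B2).card ≤
        ∑ f ∈ FFG a, ((SSG a f.1 f.2.1 f.2.2 w X A1 B1).card +
          (SSG a f.1 f.2.1 f.2.2 w X A2 B2).card) := sum_le_sum fun f _ => card_union_le _ _
    have h10 : (DB a ρ y z X).card ≤
        ∑ f ∈ FFG a, ((SSG a f.1 f.2.1 f.2.2 w X A1 B1).card +
          (SSG a f.1 f.2.1 f.2.2 w X A2 B2).card) := by omega
    exact_mod_cast h10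
  set L' : ℝ := Real.log X with hL
  have hL0 : 0 < L' := Real.log_pos (by linarith)
  set W : ℝ := 1 + Real.log (z / y) with hW
  have hW1 : 1 ≤ W := by linarith
  have hsumle : ∑ f ∈ FFG a, (((SSG a f.1 f.2.1 f.2.2 w X A1 B1).card : ℝ) +
          ((SSG a f.1 f.2.1 f.2.2 w X A2 B2).card : ℝ)) ≤
      ∑ f ∈ FFG a, K f * (2 * M * W * X / L' ^ 2) := by
    apply sum_le_sum
    intro f hf
    have hc1 := h1 f hf A1 B1 hA1' hAB1
    have hc2 := h1 f hf A2 B2 hA2' hAB2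
    have hfac0 : 0 ≤ K f * X / L' ^ 2 := by
      have := hK0 f
      positivity
    have hS1 : ((SSG a f.1 f.2.1 f.2.2 w X A1 B1).card : ℝ) ≤ K f * X / L' ^ 2 * (M * W) :=
      hc1.trans (mul_le_mul_of_nonneg_left hl1 hfac0)
    have hS2 : ((SSG a f.1 f.2.1 f.2.2 w X A2 B2).card : ℝ) ≤ K f * X / L' ^ 2 * (M * W) :=
      hc2.trans (mul_le_mul_of_nonneg_left hl2 hfac0)
    calc _ ≤ K f * X / L' ^ 2 * (M * W) + K f * X / L' ^ 2 * (M * W) := by linarith
      _ = K f * (2 * M * W * X / L' ^ 2) := by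
          field_simp
          ring
  rw [← sum_mul] at hsumle
  have hW0 : 0 ≤ W * X / L' ^ 2 := by positivity
  calc ((DB a ρ y z X).card : ℝ) ≤ S * (2 * M * W * X / L' ^ 2) := hcard.trans hsumle
    _ = (2 * M * S) * (W * X / L' ^ 2) := by ring
    _ ≤ (2 * M * S + 1) * (W * X / L' ^ 2) := by
        apply mul_le_mul_of_nonneg_right _ hW0
        linarith
    _ = (2 * M * S + 1) * W * X / L' ^ 2 := by ring

/-- the `n ≤ N` with `n ^ 2 + a` free of prime factors below `ρ` and with a proper divisor in `[y, z]` -/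
noncomputable def FB (a : ℤ) (ρ y z : ℝ) (N : ℕ) : Finset ℕ :=
  (Icc 1 N).filter (fun n : ℕ => RoughG a ρ n ∧ HasDivG a n y z)

theorem fb_split (a : ℤ) (ρ y z : ℝ) (N : ℕ) :
    (FB a ρ y z N).card ≤ (FB a ρ y z (N / 2)).card + (DB a ρ y z N).card := by
  refine (card_le_card ?_).trans (card_union_le _ _)
  intro n hn
  rw [FB, mem_filter, mem_Icc] at hn
  rw [mem_union, FB, DB, mem_filter, mem_filter, mem_Icc, mem_Ioc]
  by_cases h : n ≤ N / 2
  · left
    exact ⟨⟨hn.1.1, h⟩, hn.2⟩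
  · right
    exact ⟨⟨by omega, hn.1.2⟩, hn.2⟩

theorem fb_le (a : ℤ) (ha : ¬ IsSquare (-a)) (w : ℝ) (hw : 0 < w) : ∃ C : ℝ, 0 < C ∧
    ∀ᶠ X : ℕ in atTop, ∀ y z : ℝ, 0 < y → y ≤ z →
      ((FB a ((X : ℝ) ^ w) y z X).card : ℝ) ≤
        C * (1 + Real.log (z / y)) * X / (Real.log X) ^ 2 := by
  obtain ⟨C, hC, h⟩ := db_le a ha w hw
  rw [eventually_atTop] at h
  obtain ⟨N0, hN0⟩ := h
  refine ⟨8 * C + 1, by positivity, ?_⟩
  have hlog : Tendsto (fun X : ℕ => Real.log (X : ℝ)) atTop atTop :=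
    Real.tendsto_log_atTop.comp tendsto_natCast_atTop_atTop
  have hsq : Tendsto (fun X : ℕ => (X : ℝ) ^ (1 / 2 : ℝ)) atTop atTop :=
    (tendsto_rpow_atTop (by norm_num)).comp tendsto_natCast_atTop_atTop
  have hsmall : ∀ᶠ X : ℕ in atTop, (X : ℝ) ^ (1 / 2 : ℝ) * (Real.log X) ^ 2 ≤ X := by
    have h1 := (isLittleO_log_rpow_atTop (show (0 : ℝ) < 1 / 4 by norm_num)).def (c := 1) one_pos
    have h2 := (tendsto_natCast_atTop_atTop (R := ℝ)).eventually h1
    filter_upwards [h2, eventually_ge_atTop 1] with X h3 h4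
    have hX1 : (1 : ℝ) ≤ X := by exact_mod_cast h4
    have hX0 : (0 : ℝ) < X := by linarith
    rw [Real.norm_of_nonneg (Real.log_nonneg hX1), Real.norm_of_nonneg (by positivity), one_mul] at h3
    have h5 : (Real.log X) ^ 2 ≤ ((X : ℝ) ^ (1 / 4 : ℝ)) ^ 2 :=
      pow_le_pow_left₀ (Real.log_nonneg hX1) h3 2
    calc (X : ℝ) ^ (1 / 2 : ℝ) * (Real.log X) ^ 2 ≤
        (X : ℝ) ^ (1 / 2 : ℝ) * ((X : ℝ) ^ (1 / 4 : ℝ)) ^ 2 := by gcongr
      _ = (X : ℝ) := by
          rw [← Real.rpow_natCast, ← Real.rpow_mul hX0.le, ← Real.rpow_add hX0]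
          norm_num
  filter_upwards [hsmall, hlog.eventually_ge_atTop 1, hsq.eventually_ge_atTop (N0 : ℝ),
    eventually_ge_atTop 1] with X h1 h2 h3 h4
  intro y z hy hyz
  have hX1 : (1 : ℝ) ≤ X := by exact_mod_cast h4
  have hX0 : (0 : ℝ) < X := by linarith
  set L' : ℝ := Real.log X with hL
  have hL0 : 0 < L' := by linarith
  have hzy : 1 ≤ z / y := by rwa [one_le_div hy]
  set W : ℝ := 1 + Real.log (z / y) with hW
  have hW1 : 1 ≤ W := by
    have := Real.log_nonneg hzy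
    linarith
  set ρ : ℝ := (X : ℝ) ^ w with hρ
  have key : ∀ m : ℕ, ∀ N : ℕ, N ≤ m → N ≤ X →
      ((FB a ρ y z N).card : ℝ) ≤ (X : ℝ) ^ (1 / 2 : ℝ) + 8 * C * W * N / L' ^ 2 := by
    intro m
    induction m with
    | zero =>
      intro N hN _
      have h5 : N = 0 := by omega
      subst h5
      have h6 : (FB a ρ y z 0).card = 0 := by
        rw [FB, card_eq_zero, filter_eq_empty_iff]
        intro n hn
        rw [mem_Icc] at hn
        omega
      rw [h6]
      push_cast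
      positivity
    | succ m ih =>
      intro N hN hNX
      by_cases hsm : (N : ℝ) ≤ (X : ℝ) ^ (1 / 2 : ℝ)
      · have h5 : (FB a ρ y z N).card ≤ N := by
          refine (card_filter_le _ _).trans ?_
          rw [Nat.card_Icc]
          omega
        have h6 : ((FB a ρ y z N).card : ℝ) ≤ N := by exact_mod_cast h5
        have h7 : 0 ≤ 8 * C * W * N / L' ^ 2 := by positivity
        linarith
      · push Not at hsm
        have hN0' : N0 ≤ N := by
          have : (N0 : ℝ) ≤ N := by linarith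
          exact_mod_cast this
        have hN1 : 1 ≤ N := by
          have : (0 : ℝ) < N := lt_of_le_of_lt (by positivity) hsm
          exact_mod_cast this
        have hN1r : (1 : ℝ) ≤ N := by exact_mod_cast hN1
        have hNXr : (N : ℝ) ≤ X := by exact_mod_cast hNX
        have h5 := fb_split a ρ y z N
        have h6 : ((FB a ρ y z N).card : ℝ) ≤ (FB a ρ y z (N / 2)).card + (DB a ρ y z N).card := by
          exact_mod_cast h5
        have h7 := ih (N / 2) (by omega) (by omega)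
        have h8 : ((N / 2 : ℕ) : ℝ) ≤ N / 2 := by
          have := Nat.cast_div_le (α := ℝ) (m := N) (n := 2)
          push_cast at this
          exact this
        have h9 := hN0 N hN0' ρ y z (by rw [hρ]; gcongr) hy hyz
        have hlN : L' / 2 ≤ Real.log N := by
          have h10 := Real.log_le_log (by positivity) hsm.le
          rw [Real.log_rpow hX0] at h10
          linarith
        have h10 : C * W * N / (Real.log N) ^ 2 ≤ 4 * C * W * N / L' ^ 2 := by
          have h11 : L' ^ 2 / 4 ≤ (Real.log N) ^ 2 := by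
            calc L' ^ 2 / 4 = (L' / 2) ^ 2 := by ring
              _ ≤ (Real.log N) ^ 2 := pow_le_pow_left₀ (by linarith) hlN 2
          calc C * W * N / (Real.log N) ^ 2 ≤ C * W * N / (L' ^ 2 / 4) := by
                apply div_le_div_of_nonneg_left (by positivity) (by positivity) h11
            _ = 4 * C * W * N / L' ^ 2 := by
                field_simp
        have h12 : 8 * C * W * ((N / 2 : ℕ) : ℝ) / L' ^ 2 ≤ 4 * C * W * N / L' ^ 2 := by
          apply div_le_div_of_nonneg_right _ (by positivity)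
          have : 8 * C * W * ((N / 2 : ℕ) : ℝ) ≤ 8 * C * W * (N / 2) := by gcongr
          linarith
        calc ((FB a ρ y z N).card : ℝ) ≤ ((X : ℝ) ^ (1 / 2 : ℝ) + 4 * C * W * N / L' ^ 2) +
              4 * C * W * N / L' ^ 2 := by linarith
          _ = _ := by ring
  have h5 := key X X le_rfl le_rfl
  have h6 : (X : ℝ) ^ (1 / 2 : ℝ) ≤ W * X / L' ^ 2 := by
    rw [le_div_iff₀ (by positivity)]
    nlinarith
  calc ((FB a ρ y z X).card : ℝ) ≤ W * X / L' ^ 2 + 8 * C * W * X / L' ^ 2 := by linarith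
    _ = (8 * C + 1) * W * X / L' ^ 2 := by ring

end Pool.Agent.H578.Gen
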